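import Pool.Agent.FDT.Defs

/-! FDT, ALGPT: the Zariski closure of the comparison isomorphism has an algebraic point. -/

open scoped BigOperators

namespace Pool.Agent.FDT

open Pool.Agent.FDR

noncomputable section

theorem isUnit_iff {r : ℕ} {N : Fin r → ℕ} (f : Pt N) :
    IsUnit f ↔ (∀ j, (f.1 j).det ≠ 0) ∧ f.2 ≠ 0 := by
  rw [Prod.isUnit_iff, Pi.isUnit_iff]
  simp only [Matrix.isUnit_iff_isUnit_det, isUnit_iff_ne_zero]

theorem algpt_proof : Stmt_AlgPt := by
  intro r N γ hc
  have hcl : IsAlgClosure ℚ (algebraicClosure ℚ ℂ) := algebraicClosure.isAlgClosure ℚ ℂ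
  have hac : IsAlgClosed (algebraicClosure ℚ ℂ) := hcl.isAlgClosed
  let φ : MvPolynomial (Crd N) (algebraicClosure ℚ ℂ) →ₐ[algebraicClosure ℚ ℂ] ℂ :=
    MvPolynomial.aeval (crd (cmp γ))
  let J : Ideal (MvPolynomial (Crd N) (algebraicClosure ℚ ℂ)) := RingHom.ker φ
  have hJ : J.IsPrime := RingHom.ker_isPrime φ
  let Mx : ∀ j, Matrix (FIdx (N j)) (FIdx (N j)) (MvPolynomial (Crd N) (algebraicClosure ℚ ℂ)) :=
    fun j => Matrix.of fun q p => MvPolynomial.X (some ⟨j, q, p⟩)
  let D : MvPolynomial (Crd N) (algebraicClosure ℚ ℂ) :=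
    (∏ j, (Mx j).det) * MvPolynomial.X none
  obtain ⟨hc1, hc2⟩ := (isUnit_iff _).mp hc
  have hD : φ D ≠ 0 := by
    have h1 : φ D = (∏ j, ((cmp γ).1 j).det) * (cmp γ).2 := by
      rw [map_mul, map_prod]
      congr 1
      · apply Finset.prod_congr rfl
        intro j _
        rw [AlgHom.map_det]
        congr 1
        ext q p
        simp [Mx, φ, crd]
      · simp [φ, crd]
    rw [h1]
    exact mul_ne_zero (Finset.prod_ne_zero_iff.mpr (fun j _ => hc1 j)) hc2
  have hDJ : D ∉ J := hD
  have hNS := MvPolynomial.IsPrime.vanishingIdeal_zeroLocus (K := algebraicClosure ℚ ℂ) J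
  have hex : ∃ a ∈ MvPolynomial.zeroLocus (algebraicClosure ℚ ℂ) J,
      MvPolynomial.aeval a D ≠ 0 := by
    by_contra hno
    push Not at hno
    apply hDJ
    rw [← hNS, MvPolynomial.mem_vanishingIdeal_iff]
    exact hno
  obtain ⟨a, ha, haD⟩ := hex
  rw [MvPolynomial.mem_zeroLocus_iff] at ha
  let f : Pt N := (fun j => Matrix.of fun q p => (a (some ⟨j, q, p⟩) : ℂ), (a none : ℂ))
  have hcrd : crd f = fun x => (a x : ℂ) := by
    funext x
    rcases x with _ | ⟨j, q, p⟩ <;> rfl
  refine ⟨f, ⟨?_, ?_⟩, ?_⟩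
  · rw [isUnit_iff]
    have h1 : MvPolynomial.aeval a D = (∏ j, (Matrix.of fun q p => a (some ⟨j, q, p⟩)).det)
        * a none := by
      rw [map_mul, map_prod]
      congr 1
      · apply Finset.prod_congr rfl
        intro j _
        rw [AlgHom.map_det]
        congr 1
        ext q p
        simp [Mx]
      · simp
    rw [h1] at haD
    have h2 := mul_ne_zero_iff.mp haD
    constructor
    · intro j h3
      have h4 := Finset.prod_ne_zero_iff.mp h2.1 j (Finset.mem_univ j)
      apply h4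
      have h5 : (f.1 j).det
          = (algebraMap (algebraicClosure ℚ ℂ) ℂ)
              (Matrix.of fun q p => a (some ⟨j, q, p⟩)).det := by
        rw [RingHom.map_det]
        rfl
      rw [h5] at h3
      exact (map_eq_zero _).mp h3
    · intro h3
      apply h2.2
      exact (map_eq_zero (algebraMap (algebraicClosure ℚ ℂ) ℂ)).mp h3
  · intro P hP h0
    have hP' : ∀ m, P.coeff m ∈ algebraicClosure ℚ ℂ :=
      fun m => mem_algebraicClosure_iff.mpr (hP m)
    let P' : MvPolynomial (Crd N) (algebraicClosure ℚ ℂ) :=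
      ∑ m ∈ P.support, MvPolynomial.monomial m ⟨P.coeff m, hP' m⟩
    have hmap : MvPolynomial.map (algebraMap (algebraicClosure ℚ ℂ) ℂ) P' = P := by
      rw [map_sum]
      simp only [MvPolynomial.map_monomial]
      exact (MvPolynomial.as_sum P).symm
    have h1 : P' ∈ J := by
      change φ P' = 0
      rw [← h0, ← hmap, MvPolynomial.eval_map]
      rfl
    have h2 := ha P' h1
    rw [hcrd, ← hmap, MvPolynomial.eval_map]
    have h3 : MvPolynomial.eval₂ (algebraMap (algebraicClosure ℚ ℂ) ℂ) (fun x => (a x : ℂ)) P'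
        = algebraMap (algebraicClosure ℚ ℂ) ℂ (MvPolynomial.aeval a P') := by
      rw [← MvPolynomial.aeval_algebraMap_apply]
      rfl
    rw [h3, h2, map_zero]
  · intro x
    rw [hcrd]
    exact mem_algebraicClosure_iff.mp (a x).2

end

end Pool.Agent.FDT
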