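import Pool.Agent.FDT.Defs
import Pool.Agent.FDT.AlgPt

/-! FDT, ACT: the Hodge torsor is a torsor. -/

open scoped BigOperators

namespace Pool.Agent.FDT

open Pool.Agent.FDR

noncomputable section

variable {r : ℕ} {N : Fin r → ℕ}

/-- action on tensors -/
def act {n : ℕ} (i : Fin n → Fin r) (f : Pt N) (β : (∀ l, FIdx (N (i l))) → ℂ) :
    (∀ l, FIdx (N (i l))) → ℂ :=
  fun q => ∑ I : ∀ l, FIdx (N (i l)), (∏ l, f.1 (i l) (q l) (I l)) * β I

theorem act_one {n : ℕ} (i : Fin n → Fin r) (β : (∀ l, FIdx (N (i l))) → ℂ) :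
    act i (1 : Pt N) β = β := by
  classical
  funext q
  unfold act
  rw [Finset.sum_eq_single q]
  · have h : ∏ l, (1 : Pt N).1 (i l) (q l) (q l) = 1 := by
      apply Finset.prod_eq_one
      intro l _
      exact Matrix.one_apply_eq _
    rw [h, one_mul]
  · intro I _ hI
    have h6 : ∃ l, q l ≠ I l := by
      by_contra hc
      push Not at hc
      exact hI (funext hc).symm
    obtain ⟨l, hl⟩ := h6
    have h : ∏ l, (1 : Pt N).1 (i l) (q l) (I l) = 0 := by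
      apply Finset.prod_eq_zero (Finset.mem_univ l)
      exact Matrix.one_apply_ne hl
    rw [h, zero_mul]
  · intro h
    exact absurd (Finset.mem_univ q) h

theorem act_mul {n : ℕ} (i : Fin n → Fin r) (f g : Pt N) (β : (∀ l, FIdx (N (i l))) → ℂ) :
    act i (f * g) β = act i f (act i g β) := by
  funext q
  unfold act
  have h1 : ∀ I : ∀ l, FIdx (N (i l)), (∏ l, (f * g).1 (i l) (q l) (I l))
      = ∑ J : ∀ l, FIdx (N (i l)), (∏ l, f.1 (i l) (q l) (J l)) * ∏ l, g.1 (i l) (J l) (I l) := by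
    intro I
    have h2 : ∀ l, (f * g).1 (i l) (q l) (I l)
        = ∑ x, f.1 (i l) (q l) x * g.1 (i l) x (I l) := by
      intro l
      rfl
    simp_rw [h2]
    rw [Finset.prod_univ_sum]
    rw [Fintype.piFinset_univ]
    apply Finset.sum_congr rfl
    intro J _
    rw [Finset.prod_mul_distrib]
  simp_rw [h1, Finset.sum_mul]
  rw [Finset.sum_comm]
  apply Finset.sum_congr rfl
  intro J _
  rw [Finset.mul_sum]
  apply Finset.sum_congr rfl
  intro I _
  ring

theorem act_smul {n : ℕ} (i : Fin n → Fin r) (f : Pt N) (c : ℂ)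
    (β : (∀ l, FIdx (N (i l))) → ℂ) : act i f (fun q => c * β q) = fun q => c * act i f β q := by
  funext q
  unfold act
  rw [Finset.mul_sum]
  apply Finset.sum_congr rfl
  intro I _
  ring

theorem mem_Omega_iff (γ : ∀ j, FIdx (N j) → Loop (N j)) (f : Pt N) :
    f ∈ Omega γ ↔ IsUnit f ∧ ∀ (n : ℕ) (i : Fin n → Fin r) (k : ℤ)
      (α : (∀ l, FIdx (N (i l))) → ℂ) (β : (∀ l, FIdx (N (i l))) → ℚ), IsHodgeClass γ i k α β →
      act i f α = fun q => f.2 ^ k * ((β q : ℚ) : ℂ) := by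
  unfold Omega act
  rw [Set.mem_ofPred_eq]
  apply and_congr_right
  intro _
  constructor
  · intro h n i k α β hαβ
    funext q
    rw [← h n i k α β hαβ q]
    apply Finset.sum_congr rfl
    intro I _
    ring
  · intro h n i k α β hαβ q
    have := congrFun (h n i k α β hαβ) q
    rw [← this]
    apply Finset.sum_congr rfl
    intro I _
    ring

theorem act_cmp (γ : ∀ j, FIdx (N j) → Loop (N j)) {n : ℕ} {i : Fin n → Fin r} {k : ℤ}
    {α : (∀ l, FIdx (N (i l))) → ℂ} {β : (∀ l, FIdx (N (i l))) → ℚ}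
    (h : IsHodgeClass γ i k α β) :
    act i (cmp γ) α = fun q => (2 * Real.pi * Complex.I) ^ k * ((β q : ℚ) : ℂ) := by
  funext q
  rw [← h.rat q]
  unfold act cmp
  apply Finset.sum_congr rfl
  intro I _
  simp only [Matrix.of_apply]
  ring

theorem cmp_mem (γ : ∀ j, FIdx (N j) → Loop (N j)) (hc : IsUnit (cmp γ)) :
    cmp γ ∈ ZX γ := ⟨hc, fun _ _ h => h⟩

theorem two_pi_ne : (2 * Real.pi * Complex.I : ℂ) ≠ 0 := by
  simp [Real.pi_ne_zero, Complex.I_ne_zero]

/-- for negative twists there is nothing -/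
theorem hodge_neg (γ : ∀ j, FIdx (N j) → Loop (N j)) {n : ℕ} {i : Fin n → Fin r} {k : ℤ}
    {α : (∀ l, FIdx (N (i l))) → ℂ} {β : (∀ l, FIdx (N (i l))) → ℚ}
    (h : IsHodgeClass γ i k α β) (hk : k < 0) : (∀ I, α I = 0) ∧ ∀ q, β q = 0 := by
  have h1 : ∀ I, α I = 0 := by
    intro I
    by_contra hne
    have := (h.type I hne).1
    omega
  refine ⟨h1, ?_⟩
  intro q
  have h2 := h.rat q
  simp only [h1, zero_mul, Finset.sum_const_zero] at h2
  have h3 := (mul_eq_zero.mp h2.symm).resolve_left (zpow_ne_zero _ two_pi_ne)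
  exact_mod_cast h3

/-- `Z_X` is contained in the Hodge torsor. -/
theorem ZX_sub (γ : ∀ j, FIdx (N j) → Loop (N j)) : ZX γ ⊆ Omega γ := by
  intro f hf
  refine ⟨hf.1, ?_⟩
  intro n i k α β hαβ q
  rcases lt_or_ge k 0 with hk | hk
  · obtain ⟨h1, h2⟩ := hodge_neg γ hαβ hk
    rw [h2 q]
    simp [h1]
  obtain ⟨k0, rfl⟩ := Int.eq_ofNat_of_zero_le hk
  have hmem : ∀ I, α I ∈ algebraicClosure ℚ ℂ := fun I => mem_algebraicClosure_iff.mpr (hαβ.alg I)
  let P' : MvPolynomial (Crd N) (algebraicClosure ℚ ℂ) :=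
    (∑ I : ∀ l, FIdx (N (i l)), MvPolynomial.C ⟨α I, hmem I⟩ *
      ∏ l, MvPolynomial.X (some ⟨i l, q l, I l⟩))
    - MvPolynomial.X none ^ k0 * MvPolynomial.C (algebraMap ℚ _ (β q))
  have hev : ∀ g : Pt N, MvPolynomial.eval (crd g)
      (MvPolynomial.map (algebraMap (algebraicClosure ℚ ℂ) ℂ) P')
      = (∑ I : ∀ l, FIdx (N (i l)), α I * ∏ l, g.1 (i l) (q l) (I l)) - g.2 ^ k0 * β q := by
    intro g
    simp only [P', map_sub, map_sum, map_mul, map_prod, map_pow, MvPolynomial.map_C,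
      MvPolynomial.map_X, MvPolynomial.eval_C, MvPolynomial.eval_X]
    rfl
  have hcoef : ∀ m, IsAlgebraic ℚ
      ((MvPolynomial.map (algebraMap (algebraicClosure ℚ ℂ) ℂ) P').coeff m) := by
    intro m
    rw [MvPolynomial.coeff_map]
    exact mem_algebraicClosure_iff.mp (P'.coeff m).2
  have h0 : MvPolynomial.eval (crd (cmp γ))
      (MvPolynomial.map (algebraMap (algebraicClosure ℚ ℂ) ℂ) P') = 0 := by
    rw [hev, sub_eq_zero]
    have := hαβ.rat q
    rw [zpow_natCast] at this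
    exact this
  have h1 := hf.2 _ hcoef h0
  rw [hev, sub_eq_zero] at h1
  rw [zpow_natCast]
  exact h1

/-- the Hodge group -/
def Gr (γ : ∀ j, FIdx (N j) → Loop (N j)) : Subgroup (Pt N)ˣ where
  carrier := {g | ∀ (n : ℕ) (i : Fin n → Fin r) (k : ℤ)
      (α : (∀ l, FIdx (N (i l))) → ℂ) (β : (∀ l, FIdx (N (i l))) → ℚ), IsHodgeClass γ i k α β →
      act i (g : Pt N) (fun q => ((β q : ℚ) : ℂ))
        = fun q => (g : Pt N).2 ^ k * ((β q : ℚ) : ℂ)}
  one_mem' := by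
    intro n i k α β _
    rw [Units.val_one, act_one]
    funext q
    have : (1 : Pt N).2 = 1 := rfl
    rw [this, one_zpow, one_mul]
  mul_mem' := by
    intro g h hg hh n i k α β hαβ
    rw [Units.val_mul, act_mul, hh n i k α β hαβ, act_smul, hg n i k α β hαβ]
    funext q
    have : ((g : Pt N) * (h : Pt N)).2 = (g : Pt N).2 * (h : Pt N).2 := rfl
    rw [this, mul_zpow]
    ring
  inv_mem' := by
    intro g hg n i k α β hαβ
    have h1 := hg n i k α β hαβ
    have h2 : (fun q => ((β q : ℚ) : ℂ))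
        = act i ((g⁻¹ : (Pt N)ˣ) : Pt N) (act i (g : Pt N) (fun q => ((β q : ℚ) : ℂ))) := by
      rw [← act_mul, ← Units.val_mul, inv_mul_cancel, Units.val_one, act_one]
    rw [h1, act_smul] at h2
    have h3 : ((g⁻¹ : (Pt N)ˣ) : Pt N).2 * (g : Pt N).2 = 1 := by
      have h4 : (((g⁻¹ * g : (Pt N)ˣ)) : Pt N).2 = 1 := by
        rw [inv_mul_cancel]
        rfl
      exact h4
    funext q
    have h5 := congrFun h2 q
    have h6 : (((g⁻¹ : (Pt N)ˣ) : Pt N).2) ^ k * (g : Pt N).2 ^ k = 1 := by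
      rw [← mul_zpow, h3, one_zpow]
    rw [h5]
    rw [← mul_assoc, h6, one_mul]

theorem Gr_isQ (γ : ∀ j, FIdx (N j) → Loop (N j)) : IsQGroup (Gr γ) := by
  let poly : ∀ (n : ℕ) (i : Fin n → Fin r) (k : ℕ) (β : (∀ l, FIdx (N (i l))) → ℚ)
      (q : ∀ l, FIdx (N (i l))), MvPolynomial (Crd N) ℚ := fun n i k β q =>
    (∑ I : ∀ l, FIdx (N (i l)), (∏ l, MvPolynomial.X (some ⟨i l, q l, I l⟩)) *
      MvPolynomial.C (β I)) - MvPolynomial.X none ^ k * MvPolynomial.C (β q)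
  have hev : ∀ (n : ℕ) (i : Fin n → Fin r) (k : ℕ) (β : (∀ l, FIdx (N (i l))) → ℚ)
      (q : ∀ l, FIdx (N (i l))) (g : Pt N), MvPolynomial.aeval (crd g) (poly n i k β q)
      = act i g (fun q => ((β q : ℚ) : ℂ)) q - g.2 ^ k * ((β q : ℚ) : ℂ) := by
    intro n i k β q g
    simp only [poly, map_sub, map_sum, map_mul, map_prod, map_pow, MvPolynomial.aeval_C,
      MvPolynomial.aeval_X]
    rfl
  refine ⟨{P | ∃ (n : ℕ) (i : Fin n → Fin r) (k : ℕ) (α : (∀ l, FIdx (N (i l))) → ℂ)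
    (β : (∀ l, FIdx (N (i l))) → ℚ) (q : ∀ l, FIdx (N (i l))),
    IsHodgeClass γ i (k : ℤ) α β ∧ P = poly n i k β q}, ?_⟩
  intro g
  constructor
  · rintro hg P ⟨n, i, k, α, β, q, hαβ, rfl⟩
    rw [hev, sub_eq_zero]
    have := congrFun (hg n i (k : ℤ) α β hαβ) q
    rw [this, zpow_natCast]
  · intro hT n i k α β hαβ
    rcases lt_or_ge k 0 with hk | hk
    · obtain ⟨-, h2⟩ := hodge_neg γ hαβ hk
      funext q
      unfold act
      simp [h2]
    obtain ⟨k0, rfl⟩ := Int.eq_ofNat_of_zero_le hk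
    funext q
    have h1 := hT _ ⟨n, i, k0, α, β, q, hαβ, rfl⟩
    rw [hev, sub_eq_zero] at h1
    rw [zpow_natCast]
    exact h1

/-- the Hodge torsor is closed over the algebraic numbers -/
theorem Omega_closed (γ : ∀ j, FIdx (N j) → Loop (N j)) : IsClosedQbar (Omega γ) := by
  let poly : ∀ (n : ℕ) (i : Fin n → Fin r) (k : ℕ) (α : (∀ l, FIdx (N (i l))) → ℂ)
      (β : (∀ l, FIdx (N (i l))) → ℚ) (_ : IsHodgeClass γ i (k : ℤ) α β)
      (q : ∀ l, FIdx (N (i l))), MvPolynomial (Crd N) ℂ := fun n i k α β h q =>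
    MvPolynomial.map (algebraMap (algebraicClosure ℚ ℂ) ℂ)
    ((∑ I : ∀ l, FIdx (N (i l)), MvPolynomial.C
        (⟨α I, mem_algebraicClosure_iff.mpr (h.alg I)⟩ : algebraicClosure ℚ ℂ) *
      ∏ l, MvPolynomial.X (some ⟨i l, q l, I l⟩))
    - MvPolynomial.X none ^ k * MvPolynomial.C (algebraMap ℚ _ (β q)))
  have hev : ∀ (n : ℕ) (i : Fin n → Fin r) (k : ℕ) (α : (∀ l, FIdx (N (i l))) → ℂ)
      (β : (∀ l, FIdx (N (i l))) → ℚ) (h : IsHodgeClass γ i (k : ℤ) α β)
      (q : ∀ l, FIdx (N (i l))) (g : Pt N), MvPolynomial.eval (crd g) (poly n i k α β h q)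
      = (∑ I : ∀ l, FIdx (N (i l)), α I * ∏ l, g.1 (i l) (q l) (I l)) - g.2 ^ k * β q := by
    intro n i k α β h q g
    simp only [poly, map_sub, map_sum, map_mul, map_prod, map_pow, MvPolynomial.map_C,
      MvPolynomial.map_X, MvPolynomial.eval_C, MvPolynomial.eval_X]
    rfl
  refine ⟨{P | ∃ (n : ℕ) (i : Fin n → Fin r) (k : ℕ) (α : (∀ l, FIdx (N (i l))) → ℂ)
    (β : (∀ l, FIdx (N (i l))) → ℚ) (h : IsHodgeClass γ i (k : ℤ) α β)
    (q : ∀ l, FIdx (N (i l))), P = poly n i k α β h q}, ?_, ?_⟩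
  · rintro P ⟨n, i, k, α, β, h, q, rfl⟩ m
    simp only [poly]
    rw [MvPolynomial.coeff_map]
    exact mem_algebraicClosure_iff.mp (Subtype.property _)
  · ext f
    rw [Set.mem_ofPred_eq]
    constructor
    · intro hf
      refine ⟨hf.1, ?_⟩
      rintro P ⟨n, i, k, α, β, h, q, rfl⟩
      rw [hev n i k α β h q f, sub_eq_zero]
      have := hf.2 n i (k : ℤ) α β h q
      rw [zpow_natCast] at this
      exact this
    · rintro ⟨hu, hf⟩
      refine ⟨hu, ?_⟩
      intro n i k α β hαβ q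
      rcases lt_or_ge k 0 with hk | hk
      · obtain ⟨h1, h2⟩ := hodge_neg γ hαβ hk
        rw [h2 q]
        simp [h1]
      obtain ⟨k0, rfl⟩ := Int.eq_ofNat_of_zero_le hk
      have h1 := hf _ ⟨n, i, k0, α, β, hαβ, q, rfl⟩
      rw [hev n i k0 α β hαβ q f, sub_eq_zero] at h1
      rw [zpow_natCast]
      exact h1

theorem Omega_sub (γ : ∀ j, FIdx (N j) → Loop (N j)) (hc : IsUnit (cmp γ)) :
    IsSubtorsor (Omega γ) := by
  refine ⟨Omega_closed γ, ?_⟩
  obtain ⟨s0, hs0, halg⟩ := algpt_proof r N γ hc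
  obtain ⟨s, rfl⟩ := hs0.1
  have hsO := (mem_Omega_iff γ _).mp (ZX_sub γ hs0)
  refine ⟨Gr γ, Gr_isQ γ, s, ?_⟩
  have hs2 : (s : Pt N).2 ≠ 0 := ((isUnit_iff _).mp s.isUnit).2
  ext f
  rw [mem_Omega_iff, Set.mem_ofPred_eq]
  constructor
  · rintro ⟨⟨f', rfl⟩, hf⟩
    refine ⟨f' * s⁻¹, ?_, ?_⟩
    · intro n i k α β hαβ
      have h1 := hf n i k α β hαβ
      have h2 := hsO.2 n i k α β hαβ
      have h3 : (f' : Pt N) = ((f' * s⁻¹ : (Pt N)ˣ) : Pt N) * (s : Pt N) := by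
        rw [← Units.val_mul, inv_mul_cancel_right]
      have h4 : (f' : Pt N).2 = ((f' * s⁻¹ : (Pt N)ˣ) : Pt N).2 * (s : Pt N).2 := by
        have := congrArg Prod.snd h3
        exact this
      rw [h3, act_mul, h2, act_smul] at h1
      funext q
      have h5 := congrFun h1 q
      have h6 : (((f' * s⁻¹ : (Pt N)ˣ) : Pt N) * (s : Pt N)).2
          = ((f' * s⁻¹ : (Pt N)ˣ) : Pt N).2 * (s : Pt N).2 := rfl
      rw [h6, mul_zpow] at h5
      apply mul_left_cancel₀ (zpow_ne_zero k hs2)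
      rw [h5]
      ring
    · rw [← Units.val_mul, inv_mul_cancel_right]
  · rintro ⟨h, hh, rfl⟩
    refine ⟨?_, ?_⟩
    · exact (h * s).isUnit
    · intro n i k α β hαβ
      rw [act_mul, hsO.2 n i k α β hαβ, act_smul, hh n i k α β hαβ]
      funext q
      have h6 : ((h : Pt N) * (s : Pt N)).2 = (h : Pt N).2 * (s : Pt N).2 := rfl
      rw [h6, mul_zpow]
      ring

end

end Pool.Agent.FDT
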