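import Pool.Agent.FDT.Diag

/-! FDT, CORET: monomials whose conjugates are algebraic at the comparison isomorphism are
trivial on the Hodge torsor. -/

open scoped BigOperators

namespace Pool.Agent.FDT

open Pool.Agent.FDR Pool.Agent.FDR.DESC

noncomputable section

variable {r : ℕ} {N : Fin r → ℕ}

/-- index list of a monomial -/
def LL (N : Fin r → ℕ) (m m' : Option (Σ j, FIdx (N j)) → ℕ) : List (Σ j, FIdx (N j)) :=
  (Finset.univ : Finset (Σ j, FIdx (N j))).toList.flatMap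
    (fun x => List.replicate (m (some x)) x ++ List.replicate (m' (some x)) ⟨x.1, ng x.2⟩)

theorem prodLL {G : Type} [CommMonoid G] (m m' : Option (Σ j, FIdx (N j)) → ℕ)
    (φ : (Σ j, FIdx (N j)) → G) : ((LL N m m').map φ).prod
      = ∏ x, (φ x ^ m (some x) * φ ⟨x.1, ng x.2⟩ ^ m' (some x)) := by
  have h1 : ∀ l : List (Σ j, FIdx (N j)),
      ((l.flatMap (fun x => List.replicate (m (some x)) x
        ++ List.replicate (m' (some x)) (⟨x.1, ng x.2⟩ : Σ j, FIdx (N j)))).map φ).prod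
      = (l.map (fun x => φ x ^ m (some x) * φ ⟨x.1, ng x.2⟩ ^ m' (some x))).prod := by
    intro l
    induction l with
    | nil => simp
    | cons a l ih =>
      rw [List.flatMap_cons, List.map_append, List.prod_append, ih, List.map_cons, List.prod_cons]
      congr 1
      rw [List.map_append, List.prod_append, List.map_replicate, List.map_replicate,
        List.prod_replicate, List.prod_replicate]
  unfold LL
  rw [h1]
  exact Finset.prod_map_toList _ _

theorem prodGet {G : Type} [CommMonoid G] (m m' : Option (Σ j, FIdx (N j)) → ℕ)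
    (φ : (Σ j, FIdx (N j)) → G) : ∏ l : Fin (LL N m m').length, φ ((LL N m m').get l)
      = ∏ x, (φ x ^ m (some x) * φ ⟨x.1, ng x.2⟩ ^ m' (some x)) := by
  rw [← prodLL]
  exact Fin.prod_univ_fun_getElem _ _

/-- a coprime representative -/
theorem exists_rep (hN : ∀ j, 0 < N j) {n : ℕ} (i : Fin n → Fin r) (t : ℕ)
    (ht : ∀ l, t.Coprime (N (i l))) :
    ∃ t1 : ℕ, t1.Coprime (∏ j, N j) ∧ ∀ l, t1 ≡ t [MOD N (i l)] := by
  classical
  set M : ℕ := ∏ j, N j with hM
  have hM0 : 0 < M := Finset.prod_pos (fun j _ => hN j)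
  have hne : NeZero M := ⟨hM0.ne'⟩
  let n0 : ℕ := ∏ j ∈ Finset.univ.image i, N j
  have hdvd : n0 ∣ M := Finset.prod_dvd_prod_of_subset _ _ _ (Finset.subset_univ _)
  have hc : t.Coprime n0 := by
    apply Nat.Coprime.prod_right
    intro j hj
    obtain ⟨l, -, rfl⟩ := Finset.mem_image.mp hj
    exact ht l
  obtain ⟨U, hU⟩ := ZMod.unitsMap_surjective hdvd (ZMod.unitOfCoprime t hc)
  refine ⟨(U : ZMod M).val, ZMod.val_coe_unit_coprime U, ?_⟩
  intro l
  have h1 : (((U : ZMod M).val : ℕ) : ZMod n0) = (t : ZMod n0) := by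
    have h2 := congrArg (fun w : (ZMod n0)ˣ => (w : ZMod n0)) hU
    simp only [ZMod.unitsMap_val, ZMod.coe_unitOfCoprime] at h2
    rw [← h2, ZMod.natCast_val]
  rw [ZMod.natCast_eq_natCast_iff] at h1
  apply h1.of_dvd
  exact Finset.dvd_prod_of_mem N (Finset.mem_image_of_mem i (Finset.mem_univ l))

/-- algebraic identity -/
theorem mono_id {X : Type} [Fintype X] (F G A : X → ℂ) (w : ℂ) (a b : X → ℕ) (a0 b0 : ℕ)
    (hw : w ≠ 0) (hF : ∀ x, F x ≠ 0) (hFG : ∀ x, F x * G x = A x * w) :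
    (∏ x, (F x ^ a x * G x ^ b x)) / w ^ (((∑ x, b x : ℕ) : ℤ) + b0 - a0)
      = (∏ x, A x ^ b x) * ((∏ x, F x ^ a x) * w ^ a0 / ((∏ x, F x ^ b x) * w ^ b0)) := by
  have h1 : (∏ x, F x ^ b x) * (∏ x, G x ^ b x) = (∏ x, A x ^ b x) * w ^ (∑ x, b x) := by
    rw [← Finset.prod_mul_distrib, ← Finset.prod_pow_eq_pow_sum, ← Finset.prod_mul_distrib]
    apply Finset.prod_congr rfl
    intro x _
    rw [← mul_pow, ← mul_pow, hFG]
  have h2 : (∏ x, F x ^ b x) ≠ 0 := Finset.prod_ne_zero_iff.mpr fun x _ => pow_ne_zero _ (hF x)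
  have h3 : w ^ (((∑ x, b x : ℕ) : ℤ) + b0 - a0) = w ^ (∑ x, b x) * w ^ b0 / w ^ a0 := by
    rw [zpow_sub₀ hw, zpow_add₀ hw, zpow_natCast, zpow_natCast, zpow_natCast]
  rw [h3, Finset.prod_mul_distrib]
  have h4 : w ^ (∑ x, b x) ≠ 0 := pow_ne_zero _ hw
  have h5 : w ^ a0 ≠ 0 := pow_ne_zero _ hw
  have h6 : w ^ b0 ≠ 0 := pow_ne_zero _ hw
  rw [div_div_eq_mul_div, mul_div_assoc', div_eq_div_iff (mul_ne_zero h4 h6) (mul_ne_zero h2 h6)]
  linear_combination (∏ x, F x ^ a x) * w ^ a0 * w ^ b0 * h1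

theorem coret (hBR : Stmt_BetaRefl) (hCore : Stmt_Core2) (hN : ∀ j, 0 < N j)
    (hdeg : ∀ j, ∃ ℓ K, ℓ.Prime ∧ OddAt ℓ ∧ 0 < K ∧ (N j = ℓ ^ K ∨ N j = 2 * ℓ ^ K))
    (γ : ∀ j, FIdx (N j) → Loop (N j)) (u v : ∀ j, FIdx (N j) → ℕ)
    (hγ : ∀ j q p, (γ j q).per p = zeta (N j) ^ (u j q * p.a + v j q * p.b) * fper (N j) p)
    (m m' : Option (Σ j, FIdx (N j)) → ℕ)
    (hT : ∀ (t : ℕ) (ht : t.Coprime (∏ j, N j)), IsAlgebraic ℚ
      ((∏ x : Σ j, FIdx (N j), fper (N x.1) (mI hN t ht x.1 x.2) ^ m (some x))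
          * (2 * Real.pi * Complex.I) ^ m none
        / ((∏ x : Σ j, FIdx (N j), fper (N x.1) (mI hN t ht x.1 x.2) ^ m' (some x))
          * (2 * Real.pi * Complex.I) ^ m' none)))
    (f : Pt N) (hf : f ∈ Omega γ) (z : Option (Σ j, FIdx (N j)) → ℂˣ)
    (hz1 : ∀ j q p, f.1 j q p = ((z (some ⟨j, p⟩) : ℂˣ) : ℂ) * (γ j q).per p)
    (hz2 : f.2 = ((z none : ℂˣ) : ℂ) * (2 * Real.pi * Complex.I))
    (hz3 : ∀ j p, z (some ⟨j, p⟩) * z (some ⟨j, ng p⟩) = z none) :
    ∏ x, z x ^ m x = ∏ x, z x ^ m' x := by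
  classical
  have hpi : (2 * Real.pi * Complex.I : ℂ) ≠ 0 := by
    simp [Real.pi_ne_zero, Complex.I_ne_zero]
  let n : ℕ := (LL N m m').length
  let i : Fin n → Fin r := fun l => ((LL N m m').get l).1
  let I : ∀ l, FIdx (N (i l)) := fun l => ((LL N m m').get l).2
  let k : ℤ := ((∑ x : Σ j, FIdx (N j), m' (some x) : ℕ) : ℤ) + m' none - m none
  -- algebraicity for all conjugates
  have hA : ∀ (t : ℕ) (ht : t.Coprime (∏ j, N j)), IsAlgebraic ℚ
      ((∏ l, fper (N (i l)) (mI hN t ht (i l) (I l))) / (2 * Real.pi * Complex.I) ^ k) := by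
    intro t ht
    have h1 : ∏ l, fper (N (i l)) (mI hN t ht (i l) (I l))
        = ∏ x : Σ j, FIdx (N j), (fper (N x.1) (mI hN t ht x.1 x.2) ^ m (some x)
          * fper (N x.1) (ng (mI hN t ht x.1 x.2)) ^ m' (some x)) := by
      have h2 := prodGet m m' (fun x : Σ j, FIdx (N j) => fper (N x.1) (mI hN t ht x.1 x.2))
      refine h2.trans ?_
      apply Finset.prod_congr rfl
      intro x _
      simp only
      rw [mI_ng]
    rw [h1]
    rw [mono_id (fun x : Σ j, FIdx (N j) => fper (N x.1) (mI hN t ht x.1 x.2))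
      (fun x => fper (N x.1) (ng (mI hN t ht x.1 x.2)))
      (fun x => fper (N x.1) (mI hN t ht x.1 x.2) * fper (N x.1) (ng (mI hN t ht x.1 x.2))
        / (2 * Real.pi * Complex.I)) (2 * Real.pi * Complex.I)
      (fun x => m (some x)) (fun x => m' (some x)) (m none) (m' none) hpi
      (fun x => fper_ne (hN x.1) _) (fun x => (div_mul_cancel₀ _ hpi).symm)]
    apply IsAlgebraic.mul
    · apply prod_alg'
      intro x
      exact (fper_mul hBR (hN x.1) _).pow _
    · exact hT t ht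
  -- the Hodge condition
  have hcond : ∀ (t : ℕ) (ht : t.Coprime (∏ j, N j)), (n : ℤ) = 2 * k ∧
      ((Finset.univ.filter fun l => (mI hN t ht (i l) (I l)).a + (mI hN t ht (i l) (I l)).b
        < N (i l)).card : ℤ) = k := by
    intro t ht
    refine hCore n (fun l => N (i l)) k (fun l => hdeg (i l))
      (fun l => mI hN t ht (i l) (I l)) ?_
    intro t' ht'
    obtain ⟨t1, ht1, hmod⟩ := exists_rep hN i t' ht'
    have htt : (t1 * t).Coprime (∏ j, N j) := Nat.Coprime.mul_left ht1 ht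
    have h1 := hA (t1 * t) htt
    have hidx : ∀ l, (mI hN (t1 * t) htt (i l) (I l)).a
          = t' * (mI hN t ht (i l) (I l)).a % N (i l)
        ∧ (mI hN (t1 * t) htt (i l) (I l)).b = t' * (mI hN t ht (i l) (I l)).b % N (i l) := by
      intro l
      constructor
      · change t1 * t * (I l).a % N (i l) = t' * (t * (I l).a % N (i l)) % N (i l)
        have h2 : t1 * t * (I l).a ≡ t' * (t * (I l).a % N (i l)) [MOD N (i l)] := by
          rw [mul_assoc]
          exact (hmod l).mul (Nat.mod_modEq _ _).symm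
        exact h2
      · change t1 * t * (I l).b % N (i l) = t' * (t * (I l).b % N (i l)) % N (i l)
        have h2 : t1 * t * (I l).b ≡ t' * (t * (I l).b % N (i l)) [MOD N (i l)] := by
          rw [mul_assoc]
          exact (hmod l).mul (Nat.mod_modEq _ _).symm
        exact h2
    have h3 : ∏ l, fper (N (i l)) (mI hN (t1 * t) htt (i l) (I l))
        = (∏ l, fac (N (i l)) (mI hN (t1 * t) htt (i l) (I l)))
          * ((∏ l, bet (((t' * (mI hN t ht (i l) (I l)).a % N (i l) : ℕ) : ℝ) / N (i l))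
            (((t' * (mI hN t ht (i l) (I l)).b % N (i l) : ℕ) : ℝ) / N (i l)) : ℝ) : ℂ) := by
      push_cast
      rw [← Finset.prod_mul_distrib]
      apply Finset.prod_congr rfl
      intro l _
      rw [fper_eq (hN (i l)), (hidx l).1, (hidx l).2]
    set B : ℝ := ∏ l, bet (((t' * (mI hN t ht (i l) (I l)).a % N (i l) : ℕ) : ℝ) / N (i l))
            (((t' * (mI hN t ht (i l) (I l)).b % N (i l) : ℕ) : ℝ) / N (i l)) with hB
    have hfac : ∏ l, fac (N (i l)) (mI hN (t1 * t) htt (i l) (I l)) ≠ 0 :=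
      Finset.prod_ne_zero_iff.mpr fun l _ => fac_ne (hN (i l)) _
    have h4 : (((B / Real.pi ^ k : ℝ)) : ℂ)
        = (∏ l, fper (N (i l)) (mI hN (t1 * t) htt (i l) (I l))) / (2 * Real.pi * Complex.I) ^ k
          * (2 * Complex.I) ^ k / ∏ l, fac (N (i l)) (mI hN (t1 * t) htt (i l) (I l)) := by
      have h5 : (2 * Real.pi * Complex.I : ℂ) ^ k = (2 * Complex.I) ^ k * (Real.pi : ℂ) ^ k := by
        rw [← mul_zpow]
        congr 1
        ring
      have h6 : (Real.pi : ℂ) ^ k ≠ 0 := zpow_ne_zero _ (by exact_mod_cast Real.pi_ne_zero)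
      have h7 : (2 * Complex.I : ℂ) ^ k ≠ 0 :=
        zpow_ne_zero _ (mul_ne_zero two_ne_zero Complex.I_ne_zero)
      rw [h3, h5]
      push_cast
      field_simp
    have h8 : IsAlgebraic ℚ (((B / Real.pi ^ k : ℝ)) : ℂ) := by
      rw [h4]
      apply alg_div
      · exact h1.mul (alg_zpow ((isAlgebraic_natCast 2).mul alg_I) k)
      · exact prod_alg _ _ fun l _ => fac_alg (hN (i l)) _
    exact (isAlgebraic_algebraMap_iff (R := ℚ) (algebraMap ℝ ℂ).injective).mp h8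
  have h1c : (1 : ℕ).Coprime (∏ j, N j) := Nat.coprime_one_left _
  -- the orbit relation
  have horb := orb hN γ u v hγ i I k (hcond 1 h1c).1 hA (fun t ht => (hcond t ht).2) f hf I
  have hper : ∀ j q p, (γ j q).per p ≠ 0 := by
    intro j q p
    rw [hγ]
    apply mul_ne_zero
    · apply pow_ne_zero
      exact (zeta_prim (hN j)).ne_zero (hN j).ne'
    · exact fper_ne (hN j) p
  have h2 : ∏ l, f.1 (i l) (I l) (I l)
      = (∏ l, ((z (some ⟨i l, I l⟩) : ℂˣ) : ℂ)) * ∏ l, (γ (i l) (I l)).per (I l) := by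
    rw [← Finset.prod_mul_distrib]
    apply Finset.prod_congr rfl
    intro l _
    exact hz1 _ _ _
  rw [h2, hz2, mul_zpow ((z none : ℂˣ) : ℂ) (2 * Real.pi * Complex.I) k] at horb
  have hperne : ∏ l, (γ (i l) (I l)).per (I l) ≠ 0 :=
    Finset.prod_ne_zero_iff.mpr fun l _ => hper _ _ _
  have hpik : (2 * Real.pi * Complex.I : ℂ) ^ k ≠ 0 := zpow_ne_zero _ hpi
  have h3 : (∏ l, ((z (some ⟨i l, I l⟩) : ℂˣ) : ℂ)) = ((z none : ℂˣ) : ℂ) ^ k := by
    apply mul_right_cancel₀ (mul_ne_zero hperne hpik)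
    linear_combination horb
  have h4 : (∏ l, ((z (some ⟨i l, I l⟩) : ℂˣ) : ℂ))
      = ∏ x : Σ j, FIdx (N j), (((z (some x) : ℂˣ) : ℂ) ^ m (some x)
        * ((z (some ⟨x.1, ng x.2⟩) : ℂˣ) : ℂ) ^ m' (some x)) :=
    prodGet m m' (fun x : Σ j, FIdx (N j) => ((z (some x) : ℂˣ) : ℂ))
  have h5 := mono_id (fun x : Σ j, FIdx (N j) => ((z (some x) : ℂˣ) : ℂ))
    (fun x => ((z (some ⟨x.1, ng x.2⟩) : ℂˣ) : ℂ)) (fun _ => (1 : ℂ)) ((z none : ℂˣ) : ℂ)
    (fun x => m (some x)) (fun x => m' (some x)) (m none) (m' none) (z none).ne_zero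
    (fun x => (z (some x)).ne_zero) (by
      intro x
      rw [one_mul, ← Units.val_mul]
      obtain ⟨j, p⟩ := x
      rw [hz3 j p])
  rw [← h4, h3, div_self (zpow_ne_zero _ (z none).ne_zero)] at h5
  simp only [one_pow, Finset.prod_const_one, one_mul] at h5
  have hn1 : (∏ x : Σ j, FIdx (N j), ((z (some x) : ℂˣ) : ℂ) ^ m' (some x))
      * ((z none : ℂˣ) : ℂ) ^ m' none ≠ 0 := by
    apply mul_ne_zero
    · exact Finset.prod_ne_zero_iff.mpr fun x _ => pow_ne_zero _ (z (some x)).ne_zero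
    · exact pow_ne_zero _ (z none).ne_zero
  have h6 := (div_eq_one_iff_eq hn1).mp h5.symm
  apply Units.ext
  rw [Fintype.prod_option, Fintype.prod_option]
  push_cast
  rw [mul_comm, h6]
  ring

end

end Pool.Agent.FDT
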