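import Pool.Agent.FDT.Defs

/-! FDT, DED: Dedekind independence of characters. -/

open scoped BigOperators

namespace Pool.Agent.FDT

noncomputable section

/-- a monomial as a character -/
def mon {κ : Type} [Fintype κ] (m : κ → ℕ) : (κ → ℂˣ) →* ℂ where
  toFun z := ((∏ x, z x ^ m x : ℂˣ) : ℂ)
  map_one' := by simp
  map_mul' a b := by
    simp only [Pi.mul_apply, mul_pow, Finset.prod_mul_distrib, Units.val_mul]

theorem ded_proof : Stmt_Ded := by
  classical
  intro κ _ H P g hvan hg
  by_contra hcon
  push Not at hcon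
  -- restriction of monomials
  let ψ : (κ →₀ ℕ) → (H →* ℂ) := fun m => (mon (fun x => m x)).comp H.subtype
  have hev : ∀ z : κ → ℂˣ, MvPolynomial.eval (fun x => ((z x : ℂˣ) : ℂ)) P
      = ∑ m ∈ P.support, MvPolynomial.coeff m P * mon (fun x => m x) z := by
    intro z
    rw [MvPolynomial.eval_eq']
    apply Finset.sum_congr rfl
    intro m _
    congr 1
    simp [mon]
  have hval : ∀ m m' : κ →₀ ℕ, ψ m = ψ m' → mon (fun x => m x) g = mon (fun x => m' x) g := by
    intro m m' h
    have h1 : ∀ z ∈ H, ∏ x, z x ^ m x = ∏ x, z x ^ m' x := by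
      intro z hz
      have h2 := DFunLike.congr_fun h (⟨z, hz⟩ : H)
      exact Units.ext h2
    have h3 := hcon (fun x => m x) (fun x => m' x) h1
    simp only [mon, MonoidHom.coe_mk, OneHom.coe_mk]
    rw [h3]
  -- the coefficient sums vanish
  have hli := linearIndependent_monoidHom H ℂ
  have hsum : ∀ c ∈ P.support.image ψ,
      ∑ m ∈ P.support.filter (fun m => ψ m = c), MvPolynomial.coeff m P = 0 := by
    have h4 : ∑ c ∈ P.support.image ψ,
        (∑ m ∈ P.support.filter (fun m => ψ m = c), MvPolynomial.coeff m P) •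
          (fun f : H →* ℂ => (f : H → ℂ)) c = 0 := by
      funext z
      have h5 := hvan z.1 z.2
      rw [hev] at h5
      rw [Finset.sum_apply]
      simp only [Pi.smul_apply, smul_eq_mul, Pi.zero_apply]
      rw [← h5, ← Finset.sum_fiberwise_of_maps_to (t := P.support.image ψ) (g := ψ)
        (fun m hm => Finset.mem_image_of_mem ψ hm)]
      apply Finset.sum_congr rfl
      intro c _
      rw [Finset.sum_mul]
      apply Finset.sum_congr rfl
      intro m hm
      rw [Finset.mem_filter] at hm
      rw [← hm.2]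
      rfl
    intro c hc
    exact (linearIndependent_iff'.mp hli) _ _ h4 c hc
  apply hg
  rw [hev, ← Finset.sum_fiberwise_of_maps_to (t := P.support.image ψ) (g := ψ)
        (fun m hm => Finset.mem_image_of_mem ψ hm)]
  apply Finset.sum_eq_zero
  intro c hc
  obtain ⟨m0, hm0, hm0c⟩ := Finset.mem_image.mp hc
  have h6 : ∑ m ∈ P.support.filter (fun m => ψ m = c),
      MvPolynomial.coeff m P * mon (fun x => m x) g
      = (∑ m ∈ P.support.filter (fun m => ψ m = c), MvPolynomial.coeff m P)
        * mon (fun x => m0 x) g := by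
    rw [Finset.sum_mul]
    apply Finset.sum_congr rfl
    intro m hm
    rw [Finset.mem_filter] at hm
    rw [hval m m0 (hm.2.trans hm0c.symm)]
  rw [h6, hsum c hc, zero_mul]

end

end Pool.Agent.FDT
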