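import Pool.Agent.FDR.Stmts2

/-!
# Torsors of periods of products of Fermat curves

`X = ∏ j, F_{N j}`, where `F_N` is the Fermat curve `x ^ N + y ^ N = 1`.
-/

open scoped BigOperators

namespace Pool.Agent.FDT

open Pool.Agent.FDR

noncomputable section

variable {r : ℕ}

/-- Families of square matrices, one for every curve `F_{N j}`, with rows and columns indexed by
`FIdx (N j)`, together with a number. The units of this ring are used in two ways:
as `∏ j, Iso (H¹_dR (F_{N j}), H¹_B (F_{N j})) × 𝔾ₘ` (a matrix is given by the values of the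
images of the basis forms `ω_{a,b}` (columns) on a basis of `H₁ (F_{N j}, ℚ)` (rows)), and as
`∏ j, GL (H¹_B (F_{N j})) × 𝔾ₘ`. -/
abbrev Pt (N : Fin r → ℕ) : Type := (∀ j, Matrix (FIdx (N j)) (FIdx (N j)) ℂ) × ℂ

/-- The index set of the coordinates of `Pt N`. -/
abbrev Crd (N : Fin r → ℕ) : Type := Option (Σ j, FIdx (N j) × FIdx (N j))

/-- The coordinates: all matrix entries and the last component. -/
def crd {N : Fin r → ℕ} (f : Pt N) : Crd N → ℂ
  | none => f.2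
  | some ⟨j, q, p⟩ => f.1 j q p

/-- The comparison isomorphism: the period matrices and `2 π i`. -/
def cmp {N : Fin r → ℕ} (γ : ∀ j, FIdx (N j) → Loop (N j)) : Pt N :=
  (fun j => Matrix.of fun q p => (γ j q).per p, 2 * Real.pi * Complex.I)

/-- The complex points of the Zariski closure (over the algebraic numbers) of the comparison
isomorphism. -/
def ZX {N : Fin r → ℕ} (γ : ∀ j, FIdx (N j) → Loop (N j)) : Set (Pt N) :=
  {f | IsUnit f ∧ ∀ P : MvPolynomial (Crd N) ℂ, (∀ m, IsAlgebraic ℚ (P.coeff m)) →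
    MvPolynomial.eval (crd (cmp γ)) P = 0 → MvPolynomial.eval (crd f) P = 0}

/-- `α` is a Hodge class on `⨂ l, H¹ (F_{N (i l)})` twisted by `k`: its coordinates are algebraic
numbers, its image under the comparison isomorphism is `(2 π i) ^ k β` with `β` rational, and it is
of type `(k, k)`, i.e. `n = 2 k` and every nonzero component has exactly `k` factors of the first
kind. -/
structure IsHodgeClass {N : Fin r → ℕ} (γ : ∀ j, FIdx (N j) → Loop (N j)) {n : ℕ}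
    (i : Fin n → Fin r) (k : ℤ) (α : (∀ l, FIdx (N (i l))) → ℂ)
    (β : (∀ l, FIdx (N (i l))) → ℚ) : Prop where
  alg : ∀ I, IsAlgebraic ℚ (α I)
  rat : ∀ q : ∀ l, FIdx (N (i l)),
    ∑ I : ∀ l, FIdx (N (i l)), α I * ∏ l, (γ (i l) (q l)).per (I l) =
      (2 * Real.pi * Complex.I) ^ k * β q
  type : ∀ I, α I ≠ 0 → (n : ℤ) = 2 * k ∧
    ((Finset.univ.filter fun l => (I l).a + (I l).b < N (i l)).card : ℤ) = k

/-- The complex points `f` of the Hodge torsor: `f` maps every Hodge class `α` to `λ ^ k β`. -/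
def Omega {N : Fin r → ℕ} (γ : ∀ j, FIdx (N j) → Loop (N j)) : Set (Pt N) :=
  {f | IsUnit f ∧ ∀ (n : ℕ) (i : Fin n → Fin r) (k : ℤ) (α : (∀ l, FIdx (N (i l))) → ℂ)
    (β : (∀ l, FIdx (N (i l))) → ℚ), IsHodgeClass γ i k α β →
    ∀ q : ∀ l, FIdx (N (i l)),
      ∑ I : ∀ l, FIdx (N (i l)), α I * ∏ l, f.1 (i l) (q l) (I l) = f.2 ^ k * β q}

/-- `H` is an algebraic subgroup of `∏ j, GL (H¹_B (F_{N j})) × 𝔾ₘ` defined over `ℚ`. -/
def IsQGroup {N : Fin r → ℕ} (H : Subgroup (Pt N)ˣ) : Prop :=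
  ∃ T : Set (MvPolynomial (Crd N) ℚ), ∀ g : (Pt N)ˣ,
    g ∈ H ↔ ∀ P ∈ T, MvPolynomial.aeval (crd (g : Pt N)) P = 0

/-- `S` is the set of complex points of a closed subscheme of `Iso` defined over the algebraic
numbers. -/
def IsClosedQbar {N : Fin r → ℕ} (S : Set (Pt N)) : Prop :=
  ∃ T : Set (MvPolynomial (Crd N) ℂ), (∀ P ∈ T, ∀ m, IsAlgebraic ℚ (P.coeff m)) ∧
    S = {f | IsUnit f ∧ ∀ P ∈ T, MvPolynomial.eval (crd f) P = 0}

/-- `S` is (the set of complex points of) a closed subscheme of `Iso` defined over the algebraic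
numbers which is a torsor under an algebraic subgroup `H` of `∏ j, GL (H¹_B (F_{N j})) × 𝔾ₘ` defined
over `ℚ`. -/
def IsSubtorsor {N : Fin r → ℕ} (S : Set (Pt N)) : Prop :=
  IsClosedQbar S ∧ ∃ H : Subgroup (Pt N)ˣ, IsQGroup H ∧ ∃ s : (Pt N)ˣ,
    S = {f | ∃ h ∈ H, f = (h : Pt N) * s}

/-- Main theorem: for a product of Fermat curves of good degrees the smallest torsor containing
`Z_X` is the Hodge torsor. -/
def Stmt_Torsor : Prop := ∀ (r : ℕ) (N : Fin r → ℕ), (∀ j, GoodDeg (N j)) →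
  ∃ γ : ∀ j, FIdx (N j) → Loop (N j), IsUnit (cmp γ) ∧
    IsLeast {S : Set (Pt N) | IsSubtorsor S ∧ ZX γ ⊆ S} (Omega γ)

/-! ## Pieces -/

/-- SIG: embeddings of `ℂ` acting on roots of unity -/
def Stmt_Sig : Prop := ∀ (M t : ℕ), 0 < M → t.Coprime M →
  ∃ σ : ℂ →+* ℂ, σ (zeta M) = zeta M ^ t

/-- ROWS: loops with a nonsingular period matrix -/
def Stmt_Rows : Prop := ∀ N : ℕ, 0 < N → ∃ u v : FIdx N → ℕ,
  IsUnit (Matrix.of fun (q p : FIdx N) => zeta N ^ (u q * p.a + v q * p.b))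

/-- DED: Dedekind independence -/
def Stmt_Ded : Prop := ∀ (κ : Type) [Fintype κ] (H : Subgroup (κ → ℂˣ)) (P : MvPolynomial κ ℂ)
  (g : κ → ℂˣ), (∀ z ∈ H, MvPolynomial.eval (fun x => ((z x : ℂˣ) : ℂ)) P = 0) →
  MvPolynomial.eval (fun x => ((g x : ℂˣ) : ℂ)) P ≠ 0 →
  ∃ m m' : κ → ℕ, (∀ z ∈ H, ∏ x, z x ^ m x = ∏ x, z x ^ m' x) ∧ ∏ x, g x ^ m x ≠ ∏ x, g x ^ m' x

/-- ALGPT: an algebraic point -/
def Stmt_AlgPt : Prop := ∀ (r : ℕ) (N : Fin r → ℕ) (γ : ∀ j, FIdx (N j) → Loop (N j)),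
  IsUnit (cmp γ) → ∃ f ∈ ZX γ, ∀ x, IsAlgebraic ℚ (crd f x)

end

end Pool.Agent.FDT
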