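import Pool.Agent.FDT.Orb

/-! FDT, DIAG: the points of the Hodge torsor are diagonal. -/

open scoped BigOperators

namespace Pool.Agent.FDT

open Pool.Agent.FDR Pool.Agent.FDR.DESC

noncomputable section

theorem FIdx.a_pos {M : ℕ} (p : FIdx M) : 0 < p.a := p.2.1
theorem FIdx.b_pos {M : ℕ} (p : FIdx M) : 0 < p.b := p.2.2.1
theorem FIdx.ab_ne {M : ℕ} (p : FIdx M) : p.a + p.b ≠ M := p.2.2.2
theorem FIdx.a_lt {M : ℕ} (p : FIdx M) : p.a < M := p.1.1.2
theorem FIdx.b_lt {M : ℕ} (p : FIdx M) : p.b < M := p.1.2.2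

theorem FIdx.ext2 {N : ℕ} {p q : FIdx N} (ha : p.a = q.a) (hb : p.b = q.b) : p = q := by
  apply Subtype.ext
  apply Prod.ext
  · exact Fin.ext ha
  · exact Fin.ext hb

/-- the dual index -/
def ng {M : ℕ} (p : FIdx M) : FIdx M :=
  ⟨(⟨M - p.a, by have := FIdx.a_pos p; have := FIdx.a_lt p; omega⟩,
    ⟨M - p.b, by have := FIdx.b_pos p; have := FIdx.b_lt p; omega⟩), by
    have h1 := FIdx.a_pos p
    have h2 := FIdx.a_lt p
    have h3 := FIdx.b_pos p
    have h4 := FIdx.b_lt p
    have h5 := FIdx.ab_ne p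
    refine ⟨?_, ?_, ?_⟩
    · change 0 < M - p.a
      omega
    · change 0 < M - p.b
      omega
    · change (M - p.a) + (M - p.b) ≠ M
      omega⟩

theorem ng_a {M : ℕ} (p : FIdx M) : (ng p).a = M - p.a := rfl
theorem ng_b {M : ℕ} (p : FIdx M) : (ng p).b = M - p.b := rfl

theorem ng_ng {M : ℕ} (p : FIdx M) : ng (ng p) = p := by
  have h2 := FIdx.a_lt p
  have h4 := FIdx.b_lt p
  apply FIdx.ext2
  · rw [ng_a, ng_a]
    omega
  · rw [ng_b, ng_b]
    omega

theorem ng_kind {M : ℕ} (p : FIdx M) : (ng p).a + (ng p).b < M ↔ ¬ (p.a + p.b < M) := by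
  have h2 := FIdx.a_lt p
  have h4 := FIdx.b_lt p
  have h5 := FIdx.ab_ne p
  rw [ng_a, ng_b]
  omega

theorem mod_neg {M t a : ℕ} (ht : t.Coprime M) (h0 : 0 < a) (h1 : a < M) :
    t * (M - a) % M = M - t * a % M := by
  have hM : 0 < M := by omega
  have h2 : t * (M - a) + t * a = t * M := by
    rw [← mul_add]
    congr 1
    omega
  have h3 : (t * (M - a) % M + t * a % M) % M = 0 := by
    rw [← Nat.add_mod, h2, Nat.mul_mod_left]
  have h4 : t * a % M ≠ 0 := by
    intro h5
    have h6 : M ∣ t * a := Nat.dvd_of_mod_eq_zero h5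
    have h7 : M ∣ a := (Nat.Coprime.symm ht).dvd_of_dvd_mul_left h6
    exact absurd (Nat.le_of_dvd h0 h7) (not_le.mpr h1)
  have h5 : t * a % M < M := Nat.mod_lt _ hM
  have h6 : t * (M - a) % M < M := Nat.mod_lt _ hM
  have h7 : M ∣ (t * (M - a) % M + t * a % M) := Nat.dvd_of_mod_eq_zero h3
  obtain ⟨c, hc⟩ := h7
  have h8 : c = 1 := by
    rcases Nat.lt_or_ge c 2 with h | h
    · interval_cases c
      · omega
      · rfl
    · have : M * 2 ≤ M * c := Nat.mul_le_mul_left M h
      omega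
  rw [h8] at hc
  omega

variable {r : ℕ} {N : Fin r → ℕ}

theorem mI_ng (hN : ∀ j, 0 < N j) (t : ℕ) (ht : t.Coprime (∏ j, N j)) (j : Fin r)
    (p : FIdx (N j)) : mI hN t ht j (ng p) = ng (mI hN t ht j p) := by
  apply FIdx.ext2
  · exact mod_neg (cop_of ht j) (FIdx.a_pos p) (FIdx.a_lt p)
  · exact mod_neg (cop_of ht j) (FIdx.b_pos p) (FIdx.b_lt p)

theorem alg_I : IsAlgebraic ℚ Complex.I := by
  apply IsIntegral.isAlgebraic
  refine ⟨Polynomial.X ^ 2 + 1, ?_, ?_⟩
  · monicity!
  · simp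

theorem alg_zpow {x : ℂ} (hx : IsAlgebraic ℚ x) (k : ℤ) : IsAlgebraic ℚ (x ^ k) := by
  cases k with
  | ofNat m => simpa using hx.pow m
  | negSucc m =>
    rw [zpow_negSucc]
    exact (hx.pow (m + 1)).inv

theorem alg_div {x y : ℂ} (hx : IsAlgebraic ℚ x) (hy : IsAlgebraic ℚ y) :
    IsAlgebraic ℚ (x / y) := by
  rw [div_eq_mul_inv]
  exact hx.mul hy.inv

theorem prod_alg' {X : Type} [Fintype X] (f : X → ℂ) (h : ∀ x, IsAlgebraic ℚ (f x)) :
    IsAlgebraic ℚ (∏ x, f x) := prod_alg _ _ fun x _ => h x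

/-- the product of dual periods -/
theorem fper_mul (hBR : Stmt_BetaRefl) {M : ℕ} (hM : 0 < M) (p : FIdx M) :
    IsAlgebraic ℚ (fper M p * fper M (ng p) / (2 * Real.pi * Complex.I)) := by
  have h1 := FIdx.a_pos p
  have h2 := FIdx.a_lt p
  have h3 := FIdx.b_pos p
  have h4 := FIdx.b_lt p
  have h5 := FIdx.ab_ne p
  have hMq : (0 : ℚ) < M := by exact_mod_cast hM
  have hMr : (0 : ℝ) < M := by exact_mod_cast hM
  have hx0 : (0 : ℚ) < (p.a : ℚ) / M := by
    have : (0 : ℚ) < p.a := by exact_mod_cast h1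
    positivity
  have hy0 : (0 : ℚ) < (p.b : ℚ) / M := by
    have : (0 : ℚ) < p.b := by exact_mod_cast h3
    positivity
  have hx1 : (p.a : ℚ) / M < 1 := by
    rw [div_lt_one hMq]
    exact_mod_cast h2
  have hy1 : (p.b : ℚ) / M < 1 := by
    rw [div_lt_one hMq]
    exact_mod_cast h4
  have hxy : (p.a : ℚ) / M + (p.b : ℚ) / M ≠ 1 := by
    rw [← add_div]
    intro h
    rw [div_eq_one_iff_eq hMq.ne'] at h
    exact h5 (by exact_mod_cast h)
  have hb := (hBR _ _ hx0 hx1 hy0 hy1 hxy).1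
  have c1 : (((p.a : ℚ) / M : ℚ) : ℝ) = (p.a : ℝ) / M := by push_cast; rfl
  have c2 : (((p.b : ℚ) / M : ℚ) : ℝ) = (p.b : ℝ) / M := by push_cast; rfl
  have c3 : ((ng p).a : ℝ) / M = 1 - (p.a : ℝ) / M := by
    rw [ng_a, Nat.cast_sub h2.le]
    field_simp
  have c4 : ((ng p).b : ℝ) / M = 1 - (p.b : ℝ) / M := by
    rw [ng_b, Nat.cast_sub h4.le]
    field_simp
  rw [c1, c2, ← c3, ← c4] at hb
  have hb' : IsAlgebraic ℚ (Real.exp (Real.log (bet (p.a / M) (p.b / M))
      + Real.log (bet ((ng p).a / M) ((ng p).b / M)) - Real.log Real.pi)) := hb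
  have pa : (0 : ℝ) < p.a := by exact_mod_cast h1
  have pb : (0 : ℝ) < p.b := by exact_mod_cast h3
  have na : (0 : ℝ) < (ng p).a := by exact_mod_cast FIdx.a_pos (ng p)
  have nb : (0 : ℝ) < (ng p).b := by exact_mod_cast FIdx.b_pos (ng p)
  have e1 : 0 < bet ((p.a : ℝ) / M) ((p.b : ℝ) / M) := bet_pos (by positivity) (by positivity)
  have e2 : 0 < bet (((ng p).a : ℝ) / M) (((ng p).b : ℝ) / M) :=
    bet_pos (by positivity) (by positivity)
  rw [Real.exp_sub, Real.exp_add, Real.exp_log e1, Real.exp_log e2, Real.exp_log Real.pi_pos]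
    at hb'
  have hc : IsAlgebraic ℚ (((bet ((p.a : ℝ) / M) ((p.b : ℝ) / M)
      * bet (((ng p).a : ℝ) / M) (((ng p).b : ℝ) / M) / Real.pi : ℝ)) : ℂ) :=
    (isAlgebraic_algebraMap_iff (R := ℚ) (algebraMap ℝ ℂ).injective).mpr hb'
  have hfin : fper M p * fper M (ng p) / (2 * Real.pi * Complex.I)
      = fac M p * fac M (ng p) * (((bet ((p.a : ℝ) / M) ((p.b : ℝ) / M)
      * bet (((ng p).a : ℝ) / M) (((ng p).b : ℝ) / M) / Real.pi : ℝ)) : ℂ)
        / (2 * Complex.I) := by
    rw [fper_eq hM p, fper_eq hM (ng p)]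
    push_cast
    have : (Real.pi : ℂ) ≠ 0 := by exact_mod_cast Real.pi_ne_zero
    have := Complex.I_ne_zero
    field_simp
  rw [hfin]
  apply alg_div
  · exact ((fac_alg hM p).mul (fac_alg hM (ng p))).mul hc
  · exact (isAlgebraic_natCast 2).mul alg_I

/-- the points of the Hodge torsor are diagonal -/
theorem diag (hBR : Stmt_BetaRefl) (hN : ∀ j, 0 < N j) (γ : ∀ j, FIdx (N j) → Loop (N j))
    (u v : ∀ j, FIdx (N j) → ℕ)
    (hγ : ∀ j q p, (γ j q).per p = zeta (N j) ^ (u j q * p.a + v j q * p.b) * fper (N j) p)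
    (f : Pt N) (hf : f ∈ Omega γ) :
    ∃ z : Option (Σ j, FIdx (N j)) → ℂˣ,
      (∀ j q p, f.1 j q p = ((z (some ⟨j, p⟩) : ℂˣ) : ℂ) * (γ j q).per p) ∧
      f.2 = ((z none : ℂˣ) : ℂ) * (2 * Real.pi * Complex.I) ∧
      ∀ j p, z (some ⟨j, p⟩) * z (some ⟨j, ng p⟩) = z none := by
  classical
  have hpi : (2 * Real.pi * Complex.I : ℂ) ≠ 0 := by
    simp [Real.pi_ne_zero, Complex.I_ne_zero]
  have hf2 : f.2 ≠ 0 := by
    have h := hf.1
    rw [Prod.isUnit_iff] at h
    exact isUnit_iff_ne_zero.mp h.2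
  have hper : ∀ j q p, (γ j q).per p ≠ 0 := by
    intro j q p
    rw [hγ]
    apply mul_ne_zero
    · apply pow_ne_zero
      exact (zeta_prim (hN j)).ne_zero (hN j).ne'
    · exact fper_ne (hN j) p
  -- the key relation
  have key : ∀ j (p q0 q1 : FIdx (N j)), f.1 j q0 p * f.1 j q1 (ng p) * (2 * Real.pi * Complex.I)
      = f.2 * ((γ j q0).per p * (γ j q1).per (ng p)) := by
    intro j p q0 q1
    have h := orb hN γ u v hγ (n := 2) (fun _ => j) (fun l => if l = 0 then p else ng p) 1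
      (by norm_num) ?_ ?_ f hf (fun l => if l = 0 then q0 else q1)
    · rw [Fin.prod_univ_two, Fin.prod_univ_two] at h
      simp only [if_true, zpow_one, one_ne_zero, if_false, Fin.isValue] at h
      exact h
    · intro t ht
      rw [Fin.prod_univ_two]
      simp only [if_true, zpow_one, one_ne_zero, if_false, Fin.isValue]
      rw [mI_ng]
      exact fper_mul hBR (hN j) _
    · intro t ht
      have h1 : (Finset.univ.filter fun l : Fin 2 =>
          (mI hN t ht j (if l = 0 then p else ng p)).a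
            + (mI hN t ht j (if l = 0 then p else ng p)).b < N j)
          = {if (mI hN t ht j p).a + (mI hN t ht j p).b < N j then 0 else 1} := by
        ext l
        rw [Finset.mem_filter, Finset.mem_singleton]
        have hk := ng_kind (mI hN t ht j p)
        fin_cases l
        · simp only [Finset.mem_univ, true_and, Fin.zero_eta, Fin.isValue, if_true]
          by_cases hc : (mI hN t ht j p).a + (mI hN t ht j p).b < N j
          · rw [if_pos hc]
            simp [hc]
          · rw [if_neg hc]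
            simp [hc]
        · simp only [Finset.mem_univ, true_and, Fin.mk_one, Fin.isValue, one_ne_zero, if_false]
          rw [mI_ng, hk]
          by_cases hc : (mI hN t ht j p).a + (mI hN t ht j p).b < N j
          · rw [if_pos hc]
            simp [hc]
          · rw [if_neg hc]
            simp [hc]
      rw [h1, Finset.card_singleton]
      norm_num
  have hfne : ∀ j (p q : FIdx (N j)), f.1 j q p ≠ 0 := by
    intro j p q h0
    have h := key j p q q
    rw [h0, zero_mul, zero_mul] at h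
    exact mul_ne_zero hf2 (mul_ne_zero (hper j q p) (hper j q (ng p))) h.symm
  refine ⟨fun x => match x with
    | none => Units.mk0 (f.2 / (2 * Real.pi * Complex.I)) (div_ne_zero hf2 hpi)
    | some ⟨j, p⟩ => Units.mk0 (f.1 j p p / (γ j p).per p)
        (div_ne_zero (hfne j p p) (hper j p p)), ?_, ?_, ?_⟩
  · intro j q p
    change f.1 j q p = f.1 j p p / (γ j p).per p * (γ j q).per p
    have k1 := key j p q p
    have k2 := key j p p p
    have n1 := hfne j (ng p) p
    have n2 := hper j p p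
    have n3 := hper j p (ng p)
    rw [div_mul_eq_mul_div, eq_div_iff n2]
    apply mul_right_cancel₀ (mul_ne_zero n1 hpi)
    linear_combination (γ j p).per p * k1 - (γ j q).per p * k2
  · change f.2 = f.2 / (2 * Real.pi * Complex.I) * (2 * Real.pi * Complex.I)
    rw [div_mul_cancel₀ _ hpi]
  · intro j p
    apply Units.ext
    change f.1 j p p / (γ j p).per p * (f.1 j (ng p) (ng p) / (γ j (ng p)).per (ng p))
      = f.2 / (2 * Real.pi * Complex.I)
    have k1 := key j p p (ng p)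
    have n2 := hper j p p
    have n3 := hper j (ng p) (ng p)
    rw [div_mul_div_comm, div_eq_div_iff (mul_ne_zero n2 n3) hpi]
    exact k1

end

end Pool.Agent.FDT
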