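import Pool.Agent.FDT.Defs
import Pool.Agent.FDR.DESC

/-! FDT, ROWS: a nonsingular matrix of roots of unity. -/

open scoped BigOperators

namespace Pool.Agent.FDT

open Pool.Agent.FDR Pool.Agent.FDR.DESC

noncomputable section

theorem FIdx.ext' {N : ℕ} {p q : FIdx N} (ha : p.a = q.a) (hb : p.b = q.b) : p = q := by
  apply Subtype.ext
  apply Prod.ext
  · exact Fin.ext ha
  · exact Fin.ext hb

/-- the vector of values of the characters -/
def rv (N : ℕ) (s : ℕ × ℕ) : FIdx N → ℂ := fun p => zeta N ^ (s.1 * p.a + s.2 * p.b)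

theorem rv_span {N : ℕ} (hN : 0 < N) : Submodule.span ℂ (Set.range (rv N)) = ⊤ := by
  have key : ∀ p0 : FIdx N, (Pi.single p0 (1 : ℂ) : FIdx N → ℂ) ∈
      Submodule.span ℂ (Set.range (rv N)) := by
    intro p0
    have h1 : (Pi.single p0 (1 : ℂ) : FIdx N → ℂ)
        = ∑ s1 ∈ Finset.range N, ∑ s2 ∈ Finset.range N,
          (((N : ℂ) * N)⁻¹ * zeta N ^ ((N - 1) * (s1 * p0.a + s2 * p0.b))) • rv N (s1, s2) := by
      funext p
      simp only [Finset.sum_apply, Pi.smul_apply, smul_eq_mul, rv]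
      have h2 : ∀ s1 s2 : ℕ, ((N : ℂ) * N)⁻¹ * zeta N ^ ((N - 1) * (s1 * p0.a + s2 * p0.b)) *
          zeta N ^ (s1 * p.a + s2 * p.b)
          = ((N : ℂ) * N)⁻¹ * (zeta N ^ (s1 * (p.a + (N - 1) * p0.a)) *
            zeta N ^ (s2 * (p.b + (N - 1) * p0.b))) := by
        intro s1 s2
        rw [mul_assoc, ← pow_add, ← pow_add]
        congr 2
        ring
      simp_rw [h2, ← Finset.mul_sum, ← Finset.sum_mul]
      have o1 : ∑ s1 ∈ Finset.range N, zeta N ^ (s1 * (p.a + (N - 1) * p0.a))
          = if p.a = p0.a then (N : ℂ) else 0 := orth_idx hN p0.1.1.2 p.1.1.2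
      have o2 : ∑ s2 ∈ Finset.range N, zeta N ^ (s2 * (p.b + (N - 1) * p0.b))
          = if p.b = p0.b then (N : ℂ) else 0 := orth_idx hN p0.1.2.2 p.1.2.2
      rw [o1, o2]
      have hN0 : (N : ℂ) ≠ 0 := by exact_mod_cast hN.ne'
      by_cases hp : p = p0
      · subst hp
        rw [Pi.single_eq_same, if_pos rfl, if_pos rfl]
        field_simp
      · rw [Pi.single_eq_of_ne hp]
        by_cases ha : p.a = p0.a
        · have hb : ¬ p.b = p0.b := by
            intro hb
            exact hp (FIdx.ext' ha hb)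
          rw [if_neg hb]
          ring
        · rw [if_neg ha]
          ring
    rw [h1]
    apply Submodule.sum_mem
    intro s1 _
    apply Submodule.sum_mem
    intro s2 _
    apply Submodule.smul_mem
    exact Submodule.subset_span ⟨(s1, s2), rfl⟩
  rw [eq_top_iff]
  intro x _
  have h3 : x = ∑ p, x p • (Pi.single p (1 : ℂ) : FIdx N → ℂ) := by
    funext q
    simp [Finset.sum_apply, Pi.single_apply]
  rw [h3]
  exact Submodule.sum_mem _ (fun p _ => Submodule.smul_mem _ _ (key p))

theorem rows_proof : Stmt_Rows := by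
  intro N hN
  obtain ⟨f, hf, -, hli⟩ := Submodule.exists_fun_fin_finrank_span_eq ℂ (Set.range (rv N))
  have hcard : Module.finrank ℂ (Submodule.span ℂ (Set.range (rv N))) = Fintype.card (FIdx N) := by
    rw [rv_span hN, finrank_top, Module.finrank_fintype_fun_eq_card]
  let e : FIdx N ≃ Fin (Module.finrank ℂ (Submodule.span ℂ (Set.range (rv N)))) :=
    (Fintype.equivFin (FIdx N)).trans (finCongr hcard.symm)
  choose s hs using hf
  refine ⟨fun q => (s (e q)).1, fun q => (s (e q)).2, ?_⟩
  rw [← Matrix.linearIndependent_rows_iff_isUnit]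
  have h1 : (Matrix.of fun (q p : FIdx N) =>
      zeta N ^ ((s (e q)).1 * p.a + (s (e q)).2 * p.b)).row = fun q => f (e q) := by
    funext q p
    rw [← hs (e q)]
    rfl
  rw [h1]
  exact hli.comp _ e.injective

end

end Pool.Agent.FDT
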