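import Pool.Agent.FDT.Defs

/-! FDT, SIG: embeddings of `ℂ` acting on roots of unity. -/

open scoped BigOperators

namespace Pool.Agent.FDT

open Pool.Agent.FDR

noncomputable section

/-- a copy of `ℂ` -/
def CC : Type := ℂ

instance : Field CC := inferInstanceAs (Field ℂ)
instance : IsAlgClosed CC := inferInstanceAs (IsAlgClosed ℂ)
instance : CharZero CC := inferInstanceAs (CharZero ℂ)

/-- extension of automorphisms of the algebraic numbers -/
theorem ext_aut (τ : (algebraicClosure ℚ ℂ) ≃ₐ[ℚ] (algebraicClosure ℚ ℂ)) :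
    ∃ σ : ℂ →+* ℂ, ∀ a : algebraicClosure ℚ ℂ, σ (a : ℂ) = ((τ a : algebraicClosure ℚ ℂ) : ℂ) := by
  obtain ⟨s, hs⟩ := exists_isTranscendenceBasis (algebraicClosure ℚ ℂ) ℂ
  let R := Algebra.adjoin (algebraicClosure ℚ ℂ) (Set.range ((↑) : s → ℂ))
  let e : MvPolynomial s (algebraicClosure ℚ ℂ) ≃ₐ[algebraicClosure ℚ ℂ] R := hs.1.aevalEquiv
  let φ1 : MvPolynomial s (algebraicClosure ℚ ℂ) →+* ℂ :=
    (MvPolynomial.aeval (R := algebraicClosure ℚ ℂ) ((↑) : s → ℂ)).toRingHom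
  have h1 : Function.Injective φ1 := hs.1
  let τ' : (algebraicClosure ℚ ℂ) →+* (algebraicClosure ℚ ℂ) := τ
  have hτ' : Function.Injective τ' := τ.injective
  let φ2 : R →+* CC := (φ1.comp (MvPolynomial.map τ')).comp
      (e.symm : R →+* MvPolynomial s (algebraicClosure ℚ ℂ))
  have h2 : Function.Injective φ2 := by
    intro x y hxy
    have h3 : MvPolynomial.map τ' (e.symm x) = MvPolynomial.map τ' (e.symm y) := h1 hxy
    exact e.symm.injective (MvPolynomial.map_injective τ' hτ' h3)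
  let _ : Algebra R CC := φ2.toAlgebra
  have : Algebra.IsAlgebraic R ℂ := hs.isAlgebraic
  have : FaithfulSMul R CC := (faithfulSMul_iff_algebraMap_injective R CC).mpr h2
  let L : ℂ →ₐ[R] CC := IsAlgClosed.lift
  refine ⟨(L : ℂ →+* CC), ?_⟩
  intro a
  have h3 : (a : ℂ) = algebraMap R ℂ (algebraMap (algebraicClosure ℚ ℂ) R a) := rfl
  have h4 : L (a : ℂ) = φ2 (algebraMap (algebraicClosure ℚ ℂ) R a) := by
    rw [h3]
    exact L.commutes _
  have h5 : (e.symm (algebraMap (algebraicClosure ℚ ℂ) R a)) = MvPolynomial.C a :=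
    e.symm.commutes a
  have h6 : φ2 (algebraMap (algebraicClosure ℚ ℂ) R a)
      = φ1 (MvPolynomial.map τ'
        (e.symm (algebraMap (algebraicClosure ℚ ℂ) R a))) := rfl
  rw [h5, MvPolynomial.map_C] at h6
  have h7 : φ1 (MvPolynomial.C (τ' a))
      = ((τ a : algebraicClosure ℚ ℂ) : ℂ) := by
    exact MvPolynomial.aeval_C _ _
  exact h4.trans (h6.trans h7)

theorem sig_proof : Stmt_Sig := by
  intro M t hM ht
  have hz : IsPrimitiveRoot (zeta M) M := Complex.isPrimitiveRoot_exp M hM.ne'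
  have halg : IsAlgebraic ℚ (zeta M) := (hz.isIntegral hM).tower_top.isAlgebraic
  let z : algebraicClosure ℚ ℂ := ⟨zeta M, mem_algebraicClosure_iff.mpr halg⟩
  have hz' : IsPrimitiveRoot z M := by
    apply IsPrimitiveRoot.of_map_of_injective (f := algebraMap (algebraicClosure ℚ ℂ) ℂ)
    · exact hz
    · exact (algebraMap (algebraicClosure ℚ ℂ) ℂ).injective
  have hzt := hz'.pow_of_coprime t ht
  have hmin : minpoly ℚ z = minpoly ℚ (z ^ t) := by
    rw [← Polynomial.cyclotomic_eq_minpoly_rat hz' hM,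
      ← Polynomial.cyclotomic_eq_minpoly_rat hzt hM]
  have : Algebra.IsAlgebraic ℚ (algebraicClosure ℚ ℂ) := algebraicClosure.isAlgebraic ℚ ℂ
  have : IsAlgClosure ℚ (algebraicClosure ℚ ℂ) := algebraicClosure.isAlgClosure ℚ ℂ
  have : Normal ℚ (algebraicClosure ℚ ℂ) := IsAlgClosure.normal ℚ _
  obtain ⟨τ, hτ⟩ := minpoly.exists_algEquiv_of_root (K := ℚ) (L := algebraicClosure ℚ ℂ)
    (x := z) (y := z ^ t) (Algebra.IsAlgebraic.isAlgebraic _)
    (by rw [← hmin]; exact minpoly.aeval ℚ z)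
  obtain ⟨σ, hσ⟩ := ext_aut τ
  refine ⟨σ, ?_⟩
  have := hσ z
  rw [hτ] at this
  exact this

end

end Pool.Agent.FDT
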