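import Pool.Agent.FDT.CoreT
import Pool.Agent.FDT.Act
import Pool.Agent.FDT.Sig
import Pool.Agent.FDT.Rows
import Pool.Agent.FDT.Ded

/-! FDT, MAIN: assembly. -/

open scoped BigOperators

namespace Pool.Agent.FDT

open Pool.Agent.FDR Pool.Agent.FDR.DESC

noncomputable section

variable {r : ℕ} {N : Fin r → ℕ}

/-- the index set of the diagonal torus -/
abbrev Kp (N : Fin r → ℕ) : Type := Option (Σ j, FIdx (N j))

/-- the matrix of roots of unity -/
def Em (N : Fin r → ℕ) (u v : ∀ j, FIdx (N j) → ℕ) (j : Fin r) :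
    Matrix (FIdx (N j)) (FIdx (N j)) ℂ :=
  Matrix.of fun q p => zeta (N j) ^ (u j q * p.a + v j q * p.b)

/-- diagonal elements -/
def dgf (u v : ∀ j, FIdx (N j) → ℕ) (w : Kp N → ℂ) : Pt N :=
  (fun j => Em N u v j * Matrix.diagonal (fun p => w (some ⟨j, p⟩)) * (Em N u v j)⁻¹, w none)

theorem Em_mul_inv (u v : ∀ j, FIdx (N j) → ℕ) (hE : ∀ j, IsUnit (Em N u v j)) (j : Fin r) :
    Em N u v j * (Em N u v j)⁻¹ = 1 :=
  Matrix.mul_nonsing_inv _ ((Matrix.isUnit_iff_isUnit_det _).mp (hE j))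

theorem Em_inv_mul (u v : ∀ j, FIdx (N j) → ℕ) (hE : ∀ j, IsUnit (Em N u v j)) (j : Fin r) :
    (Em N u v j)⁻¹ * Em N u v j = 1 :=
  Matrix.nonsing_inv_mul _ ((Matrix.isUnit_iff_isUnit_det _).mp (hE j))

theorem dgf_one (u v : ∀ j, FIdx (N j) → ℕ) (hE : ∀ j, IsUnit (Em N u v j)) :
    dgf u v (1 : Kp N → ℂ) = 1 := by
  refine Prod.ext ?_ rfl
  funext j
  have h1 : Matrix.diagonal (fun p : FIdx (N j) => (1 : Kp N → ℂ) (some ⟨j, p⟩)) = 1 := by
    ext a b
    by_cases h : a = b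
    · subst h
      simp
    · simp [h]
  change Em N u v j * Matrix.diagonal (fun p => (1 : Kp N → ℂ) (some ⟨j, p⟩)) * (Em N u v j)⁻¹ = 1
  rw [h1, Matrix.mul_one, Em_mul_inv u v hE]

theorem dgf_mul (u v : ∀ j, FIdx (N j) → ℕ) (hE : ∀ j, IsUnit (Em N u v j)) (w w' : Kp N → ℂ) :
    dgf u v (w * w') = dgf u v w * dgf u v w' := by
  refine Prod.ext ?_ rfl
  funext j
  change Em N u v j * Matrix.diagonal (fun p => (w * w') (some ⟨j, p⟩)) * (Em N u v j)⁻¹
    = (Em N u v j * Matrix.diagonal (fun p => w (some ⟨j, p⟩)) * (Em N u v j)⁻¹)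
      * (Em N u v j * Matrix.diagonal (fun p => w' (some ⟨j, p⟩)) * (Em N u v j)⁻¹)
  have h1 : Matrix.diagonal (fun p : FIdx (N j) => (w * w') (some ⟨j, p⟩))
      = Matrix.diagonal (fun p : FIdx (N j) => w (some ⟨j, p⟩))
        * Matrix.diagonal (fun p : FIdx (N j) => w' (some ⟨j, p⟩)) := by
    rw [Matrix.diagonal_mul_diagonal]
    rfl
  rw [h1]
  have h2 := Em_inv_mul u v hE j
  calc Em N u v j * (Matrix.diagonal (fun p : FIdx (N j) => w (some ⟨j, p⟩))
        * Matrix.diagonal (fun p : FIdx (N j) => w' (some ⟨j, p⟩))) * (Em N u v j)⁻¹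
      = Em N u v j * Matrix.diagonal (fun p : FIdx (N j) => w (some ⟨j, p⟩)) * 1
        * Matrix.diagonal (fun p : FIdx (N j) => w' (some ⟨j, p⟩)) * (Em N u v j)⁻¹ := by
        rw [Matrix.mul_one]
        simp only [Matrix.mul_assoc]
    _ = _ := by
        rw [← h2]
        simp only [Matrix.mul_assoc]

/-- diagonal elements as a homomorphism -/
def dgH (u v : ∀ j, FIdx (N j) → ℕ) (hE : ∀ j, IsUnit (Em N u v j)) :
    (Kp N → ℂ) →* Pt N where
  toFun := dgf u v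
  map_one' := dgf_one u v hE
  map_mul' := dgf_mul u v hE

/-- diagonal units -/
def dgU (u v : ∀ j, FIdx (N j) → ℕ) (hE : ∀ j, IsUnit (Em N u v j)) :
    (Kp N → ℂˣ) →* (Pt N)ˣ :=
  (Units.map (dgH u v hE)).comp (MulEquiv.piUnits (M := fun _ : Kp N => ℂ)).symm.toMonoidHom

theorem dgU_val (u v : ∀ j, FIdx (N j) → ℕ) (hE : ∀ j, IsUnit (Em N u v j)) (w : Kp N → ℂˣ) :
    ((dgU u v hE w : (Pt N)ˣ) : Pt N) = dgf u v (fun x => ((w x : ℂˣ) : ℂ)) := rfl

/-- the coordinates of the diagonal elements as polynomials -/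
def lin (u v : ∀ j, FIdx (N j) → ℕ) : Crd N → MvPolynomial (Kp N) ℂ
  | none => MvPolynomial.X none
  | some ⟨j, q, q'⟩ => ∑ p, MvPolynomial.C (Em N u v j q p * (Em N u v j)⁻¹ p q')
      * MvPolynomial.X (some ⟨j, p⟩)

theorem lin_eval (u v : ∀ j, FIdx (N j) → ℕ) (w : Kp N → ℂ) (x : Crd N) :
    MvPolynomial.eval w (lin u v x) = crd (dgf u v w) x := by
  rcases x with _ | ⟨j, q, q'⟩
  · simp [lin, crd, dgf]
  · simp only [lin, map_sum, map_mul, MvPolynomial.eval_C, MvPolynomial.eval_X]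
    change _ = (Em N u v j * Matrix.diagonal (fun p => w (some ⟨j, p⟩)) * (Em N u v j)⁻¹) q q'
    rw [Matrix.mul_apply]
    apply Finset.sum_congr rfl
    intro p _
    rw [Matrix.mul_diagonal]
    ring

theorem poly_eval (u v : ∀ j, FIdx (N j) → ℕ) (w : Kp N → ℂ) (P : MvPolynomial (Crd N) ℚ) :
    MvPolynomial.eval w (MvPolynomial.aeval (lin u v) P)
      = MvPolynomial.aeval (crd (dgf u v w)) P := by
  induction P using MvPolynomial.induction_on with
  | C a =>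
    rw [MvPolynomial.aeval_C, MvPolynomial.aeval_C]
    have : (algebraMap ℚ (MvPolynomial (Kp N) ℂ)) a = MvPolynomial.C (algebraMap ℚ ℂ a) := rfl
    rw [this, MvPolynomial.eval_C]
  | add p q hp hq => rw [map_add, map_add, map_add, hp, hq]
  | mul_X p x hp =>
    rw [map_mul, map_mul, map_mul, hp, MvPolynomial.aeval_X, MvPolynomial.aeval_X, lin_eval]

/-- stability of rational equations under embeddings -/
theorem aeval_sigma (σ : ℂ →+* ℂ) {X : Type} (y : X → ℂ) (P : MvPolynomial X ℚ) :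
    MvPolynomial.aeval (fun x => σ (y x)) P = σ (MvPolynomial.aeval y P) := by
  induction P using MvPolynomial.induction_on with
  | C a =>
    rw [MvPolynomial.aeval_C, MvPolynomial.aeval_C]
    exact (map_ratCast σ a).symm
  | add p q hp hq => rw [map_add, map_add, map_add, hp, hq]
  | mul_X p x hp =>
    rw [map_mul, map_mul, map_mul, hp, MvPolynomial.aeval_X, MvPolynomial.aeval_X]

theorem sigma_E (hN : ∀ j, 0 < N j) (u v : ∀ j, FIdx (N j) → ℕ) (σ : ℂ →+* ℂ) (t t' : ℕ)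
    (ht : t.Coprime (∏ j, N j)) (hinv : t' * t ≡ 1 [MOD ∏ j, N j])
    (hσ : σ (zeta (∏ j, N j)) = zeta (∏ j, N j) ^ t') (j : Fin r) (q p : FIdx (N j)) :
    σ (Em N u v j q (mI hN t ht j p)) = Em N u v j q p := by
  have hM0 : 0 < ∏ j, N j := Finset.prod_pos (fun j _ => hN j)
  have hroot : zeta (∏ j, N j) ^ ((∏ j, N j) / N j) = zeta (N j) :=
    zeta_pow_div hM0 (Finset.dvd_prod_of_mem N (Finset.mem_univ j))
  have h1 : σ (zeta (N j)) = zeta (N j) ^ t' := by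
    rw [← hroot, map_pow, hσ, ← pow_mul, ← pow_mul, mul_comm]
  change σ (zeta (N j) ^ (u j q * (mI hN t ht j p).a + v j q * (mI hN t ht j p).b)) = _
  rw [zeta_mI, map_pow, map_pow, h1, ← pow_mul, ← pow_mul]
  change _ = zeta (N j) ^ (u j q * p.a + v j q * p.b)
  have h2 : t' * t ≡ 1 [MOD N j] := hinv.of_dvd (Finset.dvd_prod_of_mem N (Finset.mem_univ j))
  have h3 : t' * t * (u j q * p.a + v j q * p.b) ≡ u j q * p.a + v j q * p.b [MOD N j] := by
    have := h2.mul_right (u j q * p.a + v j q * p.b)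
    rwa [one_mul] at this
  rw [mul_assoc] at h3
  exact pow_eq_pow_of_modEq h3 (zeta_prim (hN j)).pow_eq_one

/-- conjugation of diagonal elements -/
theorem dgf_sigma (hN : ∀ j, 0 < N j) (u v : ∀ j, FIdx (N j) → ℕ)
    (hE : ∀ j, IsUnit (Em N u v j)) (σ : ℂ →+* ℂ) (t t' : ℕ)
    (ht : t.Coprime (∏ j, N j)) (hinv : t' * t ≡ 1 [MOD ∏ j, N j])
    (hσ : σ (zeta (∏ j, N j)) = zeta (∏ j, N j) ^ t') (w w' : Kp N → ℂ)
    (h0 : w' none = σ (w none)) (h1 : ∀ j p, w' (some ⟨j, p⟩) = σ (w (some ⟨j, mI hN t ht j p⟩)))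
    (x : Crd N) : crd (dgf u v w') x = σ (crd (dgf u v w) x) := by
  rcases x with _ | ⟨j, q, q'⟩
  · exact h0
  change (dgf u v w').1 j q q' = σ ((dgf u v w).1 j q q')
  have h2 : (dgf u v w).1 j * Em N u v j
      = Em N u v j * Matrix.diagonal (fun p => w (some ⟨j, p⟩)) := by
    change Em N u v j * Matrix.diagonal (fun p => w (some ⟨j, p⟩)) * (Em N u v j)⁻¹
      * Em N u v j = _
    rw [Matrix.mul_assoc, Em_inv_mul u v hE, Matrix.mul_one]
  have h3 : ((dgf u v w).1 j).map σ * Em N u v j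
      = Em N u v j * Matrix.diagonal (fun p => w' (some ⟨j, p⟩)) := by
    ext a p
    rw [Matrix.mul_diagonal, Matrix.mul_apply, h1]
    have h4 := congrFun (congrFun h2 a) (mI hN t ht j p)
    rw [Matrix.mul_diagonal, Matrix.mul_apply] at h4
    have h5 := congrArg σ h4
    rw [map_sum, map_mul, sigma_E hN u v σ t t' ht hinv hσ] at h5
    rw [← h5]
    apply Finset.sum_congr rfl
    intro b _
    rw [map_mul, sigma_E hN u v σ t t' ht hinv hσ]
    rfl
  have h6 : ((dgf u v w).1 j).map σ = (dgf u v w').1 j := by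
    change _ = Em N u v j * Matrix.diagonal (fun p => w' (some ⟨j, p⟩)) * (Em N u v j)⁻¹
    rw [← h3, Matrix.mul_assoc, Em_mul_inv u v hE, Matrix.mul_one]
  rw [← h6]
  rfl

/-- the points of the Hodge torsor -/
theorem point_eq (u v : ∀ j, FIdx (N j) → ℕ) (hE : ∀ j, IsUnit (Em N u v j))
    (γ : ∀ j, FIdx (N j) → Loop (N j))
    (hγ : ∀ j q p, (γ j q).per p = zeta (N j) ^ (u j q * p.a + v j q * p.b) * fper (N j) p)
    (f : Pt N) (z : Kp N → ℂˣ)
    (hz1 : ∀ j q p, f.1 j q p = ((z (some ⟨j, p⟩) : ℂˣ) : ℂ) * (γ j q).per p)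
    (hz2 : f.2 = ((z none : ℂˣ) : ℂ) * (2 * Real.pi * Complex.I)) :
    f = dgf u v (fun x => ((z x : ℂˣ) : ℂ)) * cmp γ := by
  refine Prod.ext ?_ hz2
  funext j
  change f.1 j = Em N u v j * Matrix.diagonal (fun p => ((z (some ⟨j, p⟩) : ℂˣ) : ℂ))
    * (Em N u v j)⁻¹ * Matrix.of (fun q p => (γ j q).per p)
  have h1 : Matrix.of (fun q p => (γ j q).per p)
      = Em N u v j * Matrix.diagonal (fun p => fper (N j) p) := by
    ext q p
    rw [Matrix.mul_diagonal]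
    exact hγ j q p
  rw [h1]
  have h2 : Em N u v j * Matrix.diagonal (fun p => ((z (some ⟨j, p⟩) : ℂˣ) : ℂ))
    * (Em N u v j)⁻¹ * (Em N u v j * Matrix.diagonal (fun p => fper (N j) p))
    = Em N u v j * Matrix.diagonal (fun p => ((z (some ⟨j, p⟩) : ℂˣ) : ℂ))
      * ((Em N u v j)⁻¹ * Em N u v j) * Matrix.diagonal (fun p => fper (N j) p) := by
    simp only [Matrix.mul_assoc]
  rw [h2, Em_inv_mul u v hE, Matrix.mul_one]
  ext q p
  rw [Matrix.mul_diagonal, Matrix.mul_diagonal, hz1, hγ]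
  change _ = zeta (N j) ^ (u j q * p.a + v j q * p.b) * _ * _
  ring

theorem torsor_proof (hBR : Stmt_BetaRefl) (hCore : Stmt_Core2) (hOdd : Stmt_Odd)
    (hOdd2 : Stmt_Odd2) (hLoop : Stmt_Loop) : Stmt_Torsor := by
  intro r N hgood
  have hdeg : ∀ j, ∃ ℓ K, ℓ.Prime ∧ OddAt ℓ ∧ 0 < K ∧ (N j = ℓ ^ K ∨ N j = 2 * ℓ ^ K) := by
    intro j
    obtain ⟨ℓ, K, s, hp, hs, hK, hNj⟩ := hgood j
    refine ⟨ℓ, K, hp, ?_, hK, hNj⟩
    rcases Nat.eq_zero_or_pos s with h0 | h0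
    · have : ℓ = 2 := by rw [hs, h0]; rfl
      rw [this]
      exact hOdd2
    · exact hOdd ℓ ⟨hp, s, h0, hs⟩
  have hN : ∀ j, 0 < N j := by
    intro j
    obtain ⟨ℓ, K, hp, -, -, h | h⟩ := hdeg j
    · rw [h]; exact pow_pos hp.pos K
    · rw [h]; exact Nat.mul_pos two_pos (pow_pos hp.pos K)
  choose u v hE' using fun j => rows_proof (N j) (hN j)
  have hE : ∀ j, IsUnit (Em N u v j) := hE'
  choose γ hγ using fun j (q : FIdx (N j)) => hLoop (N j) (hN j) (u j q) (v j q)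
  have hper : ∀ j q p, (γ j q).per p ≠ 0 := by
    intro j q p
    rw [hγ]
    apply mul_ne_zero
    · apply pow_ne_zero
      exact (zeta_prim (hN j)).ne_zero (hN j).ne'
    · exact fper_ne (hN j) p
  have hc : IsUnit (cmp γ) := by
    rw [isUnit_iff]
    refine ⟨?_, two_pi_ne⟩
    intro j
    have h1 : (cmp γ).1 j = Em N u v j * Matrix.diagonal (fun p => fper (N j) p) := by
      ext q p
      rw [Matrix.mul_diagonal]
      exact hγ j q p
    rw [h1, Matrix.det_mul, Matrix.det_diagonal]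
    apply mul_ne_zero
    · exact isUnit_iff_ne_zero.mp ((Matrix.isUnit_iff_isUnit_det _).mp (hE j))
    · exact Finset.prod_ne_zero_iff.mpr fun p _ => fper_ne (hN j) p
  refine ⟨γ, hc, ⟨Omega_sub γ hc, ZX_sub γ⟩, ?_⟩
  rintro S ⟨⟨-, H, ⟨T, hT⟩, s, rfl⟩, hZ⟩ f hf
  -- an algebraic point
  obtain ⟨s0, hs0, halg⟩ := algpt_proof r N γ hc
  obtain ⟨z', hz1', hz2', hz3'⟩ := diag hBR hN γ u v hγ s0 (ZX_sub γ hs0)
  obtain ⟨z, hz1, hz2, hz3⟩ := diag hBR hN γ u v hγ f hf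
  obtain ⟨h1, hh1, hs0s⟩ := hZ hs0
  obtain ⟨h2, hh2, hcs⟩ := hZ (cmp_mem γ hc)
  obtain ⟨cU, hcU⟩ := hc
  have hsf := point_eq u v hE γ hγ s0 z' hz1' hz2'
  have hff := point_eq u v hE γ hγ f z hz1 hz2
  have e1 : dgU u v hE z' * cU = h1 * s := by
    apply Units.ext
    rw [Units.val_mul, dgU_val, hcU, ← hsf, hs0s, Units.val_mul]
  have e2 : cU = h2 * s := by
    apply Units.ext
    rw [hcU, hcs, Units.val_mul]
  have hzH : dgU u v hE (z'⁻¹) ∈ H := by
    have e3 : dgU u v hE (z'⁻¹) = h2 * h1⁻¹ := by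
      rw [map_inv]
      have e4 : dgU u v hE z' = h1 * s * cU⁻¹ := by
        rw [← e1, mul_inv_cancel_right]
      rw [e4, e2]
      group
    rw [e3]
    exact H.mul_mem hh2 (H.inv_mem hh1)
  suffices hgoal : dgU u v hE (z * z'⁻¹) ∈ H by
    refine ⟨dgU u v hE (z * z'⁻¹) * h1, H.mul_mem hgoal hh1, ?_⟩
    rw [Units.val_mul, mul_assoc, ← Units.val_mul h1 s, ← e1, ← Units.val_mul, ← mul_assoc,
      ← map_mul, inv_mul_cancel_right, Units.val_mul, dgU_val, hcU]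
    exact hff
  by_contra hnot
  rw [hT] at hnot
  push Not at hnot
  obtain ⟨P, hPT, hP⟩ := hnot
  rw [dgU_val, ← poly_eval] at hP
  obtain ⟨m, m', hmH, hmne⟩ := ded_proof (Kp N) (H.comap (dgU u v hE))
    (MvPolynomial.aeval (lin u v) P) (z * z'⁻¹)
    (by
      intro w hw
      rw [poly_eval]
      exact (hT _).mp hw P hPT) hP
  -- algebraicity of all conjugates
  have hM0 : 0 < ∏ j, N j := Finset.prod_pos (fun j _ => hN j)
  have hTT : ∀ (t : ℕ) (ht : t.Coprime (∏ j, N j)), IsAlgebraic ℚ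
      ((∏ x : Σ j, FIdx (N j), fper (N x.1) (mI hN t ht x.1 x.2) ^ m (some x))
          * (2 * Real.pi * Complex.I) ^ m none
        / ((∏ x : Σ j, FIdx (N j), fper (N x.1) (mI hN t ht x.1 x.2) ^ m' (some x))
          * (2 * Real.pi * Complex.I) ^ m' none)) := by
    intro t ht
    have hne : NeZero (∏ j, N j) := ⟨hM0.ne'⟩
    let U : (ZMod (∏ j, N j))ˣ := (ZMod.unitOfCoprime t ht)⁻¹
    have hUc : (U : ZMod (∏ j, N j)).val.Coprime (∏ j, N j) := ZMod.val_coe_unit_coprime U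
    have hinv : (U : ZMod (∏ j, N j)).val * t ≡ 1 [MOD ∏ j, N j] := by
      rw [← ZMod.natCast_eq_natCast_iff]
      push_cast
      rw [ZMod.natCast_zmod_val]
      have : (U : ZMod (∏ j, N j)) * (ZMod.unitOfCoprime t ht : (ZMod (∏ j, N j))ˣ) = 1 := by
        rw [← Units.val_mul, inv_mul_cancel, Units.val_one]
      rw [ZMod.coe_unitOfCoprime] at this
      exact this
    obtain ⟨σ, hσ⟩ := sig_proof (∏ j, N j) _ hM0 hUc
    -- the conjugate of `z'⁻¹`
    let w : Kp N → ℂˣ := z'⁻¹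
    let ws : Kp N → ℂˣ := fun x => match x with
      | none => Units.map (σ : ℂ →* ℂ) (w none)
      | some ⟨j, p⟩ => Units.map (σ : ℂ →* ℂ) (w (some ⟨j, mI hN t ht j p⟩))
    have hws : ws ∈ H.comap (dgU u v hE) := by
      rw [Subgroup.mem_comap, hT]
      intro Q hQ
      rw [dgU_val]
      have h3 : crd (dgf u v (fun x => ((ws x : ℂˣ) : ℂ)))
          = fun x => σ (crd (dgf u v (fun x => ((w x : ℂˣ) : ℂ))) x) := by
        funext x
        exact dgf_sigma hN u v hE σ t _ ht hinv hσ _ _ rfl (fun j p => rfl) x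
      rw [h3, aeval_sigma]
      have h4 := (hT _).mp hzH Q hQ
      rw [dgU_val] at h4
      rw [h4, map_zero]
    have h5 := hmH ws hws
    have h6 : ∀ e : Kp N → ℕ, ((∏ x, ws x ^ e x : ℂˣ) : ℂ)
        = σ ((∏ x : Σ j, FIdx (N j), ((w (some ⟨x.1, mI hN t ht x.1 x.2⟩) : ℂˣ) : ℂ) ^ e (some x))
          * ((w none : ℂˣ) : ℂ) ^ e none) := by
      intro e
      rw [Fintype.prod_option]
      push_cast
      rw [map_mul, map_prod, map_pow, mul_comm]
      congr 1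
      apply Finset.prod_congr rfl
      intro x _
      rw [map_pow]
      rfl
    have h7 : (∏ x : Σ j, FIdx (N j), ((w (some ⟨x.1, mI hN t ht x.1 x.2⟩) : ℂˣ) : ℂ) ^ m (some x))
          * ((w none : ℂˣ) : ℂ) ^ m none
        = (∏ x : Σ j, FIdx (N j), ((w (some ⟨x.1, mI hN t ht x.1 x.2⟩) : ℂˣ) : ℂ) ^ m' (some x))
          * ((w none : ℂˣ) : ℂ) ^ m' none := by
      apply σ.injective
      rw [← h6 m, ← h6 m', h5]
    -- the algebraic numbers
    let a : (Σ j, FIdx (N j)) → ℂ := fun x => ((z' (some x) : ℂˣ) : ℂ) * fper (N x.1) x.2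
    have ha : ∀ x, IsAlgebraic ℚ (a x) := by
      intro x
      obtain ⟨j, p⟩ := x
      have h8 := hz1' j p p
      rw [hγ] at h8
      have hz0 : zeta (N j) ^ (u j p * p.a + v j p * p.b) ≠ 0 :=
        pow_ne_zero _ ((zeta_prim (hN j)).ne_zero (hN j).ne')
      have h9 : a ⟨j, p⟩ = s0.1 j p p / zeta (N j) ^ (u j p * p.a + v j p * p.b) := by
        rw [eq_div_iff hz0, h8]
        change ((z' (some ⟨j, p⟩) : ℂˣ) : ℂ) * fper (N j) p * _ = _
        ring
      rw [h9]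
      exact alg_div (halg (some ⟨j, p, p⟩)) ((zeta_alg (hN j)).pow _)
    have ha0 : IsAlgebraic ℚ (((z' none : ℂˣ) : ℂ) * (2 * Real.pi * Complex.I)) := by
      rw [← hz2']
      exact halg none
    have h10 : ∀ e : Kp N → ℕ,
        (∏ x : Σ j, FIdx (N j), fper (N x.1) (mI hN t ht x.1 x.2) ^ e (some x))
          * (2 * Real.pi * Complex.I) ^ e none
        = ((∏ x : Σ j, FIdx (N j), a ⟨x.1, mI hN t ht x.1 x.2⟩ ^ e (some x))
          * (((z' none : ℂˣ) : ℂ) * (2 * Real.pi * Complex.I)) ^ e none)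
          * ((∏ x : Σ j, FIdx (N j), ((w (some ⟨x.1, mI hN t ht x.1 x.2⟩) : ℂˣ) : ℂ) ^ e (some x))
          * ((w none : ℂˣ) : ℂ) ^ e none) := by
      intro e
      have h11 : ∀ x : Σ j, FIdx (N j), fper (N x.1) (mI hN t ht x.1 x.2) ^ e (some x)
          = a ⟨x.1, mI hN t ht x.1 x.2⟩ ^ e (some x)
            * ((w (some ⟨x.1, mI hN t ht x.1 x.2⟩) : ℂˣ) : ℂ) ^ e (some x) := by
        intro x
        rw [← mul_pow]
        congr 1
        change _ = ((z' (some ⟨x.1, mI hN t ht x.1 x.2⟩) : ℂˣ) : ℂ)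
          * fper (N x.1) (mI hN t ht x.1 x.2)
          * (((z' (some ⟨x.1, mI hN t ht x.1 x.2⟩))⁻¹ : ℂˣ) : ℂ)
        have hi := Units.mul_inv (z' (some ⟨x.1, mI hN t ht x.1 x.2⟩))
        linear_combination -(fper (N x.1) (mI hN t ht x.1 x.2)) * hi
      have h12 : (2 * Real.pi * Complex.I : ℂ) ^ e none
          = (((z' none : ℂˣ) : ℂ) * (2 * Real.pi * Complex.I)) ^ e none
            * ((w none : ℂˣ) : ℂ) ^ e none := by
        rw [← mul_pow]
        congr 1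
        change _ = ((z' none : ℂˣ) : ℂ) * (2 * Real.pi * Complex.I)
          * (((z' none)⁻¹ : ℂˣ) : ℂ)
        have hi := Units.mul_inv (z' none)
        linear_combination -(2 * Real.pi * Complex.I) * hi
      rw [Finset.prod_congr rfl (fun x _ => h11 x), Finset.prod_mul_distrib, h12]
      ring
    rw [h10 m, h10 m', h7]
    have hwne : (∏ x : Σ j, FIdx (N j), ((w (some ⟨x.1, mI hN t ht x.1 x.2⟩) : ℂˣ) : ℂ)
        ^ m' (some x)) * ((w none : ℂˣ) : ℂ) ^ m' none ≠ 0 := by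
      apply mul_ne_zero
      · exact Finset.prod_ne_zero_iff.mpr fun x _ => pow_ne_zero _ (Units.ne_zero _)
      · exact pow_ne_zero _ (Units.ne_zero _)
    rw [mul_div_mul_right _ _ hwne]
    have h13 : ∀ e : Kp N → ℕ, IsAlgebraic ℚ
        ((∏ x : Σ j, FIdx (N j), a ⟨x.1, mI hN t ht x.1 x.2⟩ ^ e (some x))
          * (((z' none : ℂˣ) : ℂ) * (2 * Real.pi * Complex.I)) ^ e none) := by
      intro e
      exact (prod_alg' _ (fun x => (ha _).pow _)).mul (ha0.pow _)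
    exact alg_div (h13 m) (h13 m')
  -- the contradiction
  have k1 := coret hBR hCore hN hdeg γ u v hγ m m' hTT f hf z hz1 hz2 hz3
  have k2 := coret hBR hCore hN hdeg γ u v hγ m m' hTT s0 (ZX_sub γ hs0) z' hz1' hz2' hz3'
  apply hmne
  have h14 : ∀ e : Kp N → ℕ, ∏ x, (z * z'⁻¹) x ^ e x = (∏ x, z x ^ e x) * (∏ x, z' x ^ e x)⁻¹ := by
    intro e
    rw [← Finset.prod_inv_distrib, ← Finset.prod_mul_distrib]
    apply Finset.prod_congr rfl
    intro x _
    rw [Pi.mul_apply, Pi.inv_apply, mul_pow, inv_pow]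
  rw [h14 m, h14 m', k1, k2]

end

end Pool.Agent.FDT
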