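import Pool.Agent.FDR.Assembly
import Pool.Agent.FDT.Main

/-!
# Torsors of periods of products of Fermat curves

`F_N` is the Fermat curve `x ^ N + y ^ N = 1` over the algebraic numbers, and `X = ∏ j, F_{N j}`,
where every `N j` is `ℓ ^ K` or `2 ℓ ^ K`, `K ≥ 1`, with `ℓ = 2` or a Fermat prime.

* The forms `ω_{a,b} = x ^ (a-1) y ^ (b-N) dx`, `0 < a, b < N`, `a + b ≠ N`, are a basis of the
  algebraic de Rham cohomology `H¹_dR(F_N)`; those with `a + b < N` are the forms of the first kind.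
* A family of closed curves `γ q`, indexed by the same set, with an invertible matrix of periods is a
  basis of `H₁(F_N, ℚ)`.
* The cohomology ring of `X` is generated by the `H¹(F_{N j})` and by the classes of a point in the
  `H²(F_{N j})`, so an isomorphism `f` in the motivic torsor `Ω_X ⊆ Iso (H_dR (X), H_B (X))` of
  periods is given by isomorphisms `f j : H¹_dR(F_{N j}) ⊗ ℂ → H¹_B(F_{N j}) ⊗ ℂ` and the number `λ`
  by which it acts on Tate twists.  The isomorphism `f j` is given by the matrix of the values of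
  `f j (ω_{a,b})` (columns) on the curves `γ j q` (rows); for the comparison isomorphism `c` this is the
  matrix of periods, and `λ = 2 π i`.
-/

open scoped BigOperators

namespace Pool.Agent.FDT.ExplicitFermat

noncomputable section

/-! ### Fermat curves: forms, closed curves, periods -/

/-- `N = ℓ ^ K` or `N = 2 ℓ ^ K`, `K ≥ 1`, where `ℓ` is a prime of the form `2 ^ s + 1`, `s ≥ 0`
(so `ℓ` is `2`, `3`, `5`, `17`, `257`, `65537` or another Fermat prime). -/
def GoodDegree (N : ℕ) : Prop :=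
  ∃ ℓ K s : ℕ, ℓ.Prime ∧ ℓ = 2 ^ s + 1 ∧ 0 < K ∧ (N = ℓ ^ K ∨ N = 2 * ℓ ^ K)

/-- The index set of the basis `ω_{a,b}` of `H¹_dR(F_N)`: `0 < a < N`, `0 < b < N`, `a + b ≠ N`. -/
def FormIdx (N : ℕ) : Type :=
  {p : Fin N × Fin N // 0 < (p.1 : ℕ) ∧ 0 < (p.2 : ℕ) ∧ (p.1 : ℕ) + (p.2 : ℕ) ≠ N}

instance (N : ℕ) : Fintype (FormIdx N) := by unfold FormIdx; infer_instance
instance (N : ℕ) : DecidableEq (FormIdx N) := by unfold FormIdx; infer_instance

/-- the exponent `a` of `ω_{a,b}` -/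
def FormIdx.a {N : ℕ} (p : FormIdx N) : ℕ := (p.1.1 : ℕ)
/-- the exponent `b` of `ω_{a,b}` -/
def FormIdx.b {N : ℕ} (p : FormIdx N) : ℕ := (p.1.2 : ℕ)

/-- A `C¹` arc `[0,1] → F_N` on the affine Fermat curve `x ^ N + y ^ N = 1`. -/
structure Arc (N : ℕ) where
  x : ℝ → ℂ
  y : ℝ → ℂ
  hx : ContDiffOn ℝ 1 x (Set.Icc 0 1)
  hy : ContDiffOn ℝ 1 y (Set.Icc 0 1)
  eqn : ∀ t ∈ Set.Icc (0 : ℝ) 1, x t ^ N + y t ^ N = 1

/-- The integral over an arc of `ω_{a,b} = x ^ (a-1) y ^ (b-N) dx`, written without denominators: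
on the curve `ω_{a,b} = x ^ (a-1) y ^ (b-1) (y dx - x dy)`. -/
def Arc.integral {N : ℕ} (A : Arc N) (p : FormIdx N) : ℂ :=
  ∫ t in (0 : ℝ)..1, A.x t ^ (p.a - 1) * A.y t ^ (p.b - 1) *
    (A.y t * deriv A.x t - A.x t * deriv A.y t)

/-- A closed curve on the affine Fermat curve, composed of `m` consecutive `C¹` arcs. -/
structure Loop (N : ℕ) where
  m : ℕ
  arc : Fin m → Arc N
  closed : ∀ i : Fin m, (arc i).x 1 = (arc (finRotate m i)).x 0 ∧
    (arc i).y 1 = (arc (finRotate m i)).y 0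

/-- The period of `ω_{a,b}` along a closed curve. -/
def Loop.period {N : ℕ} (γ : Loop N) (p : FormIdx N) : ℂ := ∑ i, (γ.arc i).integral p

/-! ### Iso, the comparison isomorphism and its Zariski closure -/

variable {r : ℕ}

/-- Families of square matrices, one for every curve `F_{N j}`, with rows and columns indexed by
`FormIdx (N j)`, together with a number `λ`.  The units of this ring are the points of
`Iso = ∏ j, Iso (H¹_dR (F_{N j}), H¹_B (F_{N j})) × 𝔾ₘ` (columns: basis of `H¹_dR`, rows: basis of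
`H₁`), and also the points of `∏ j, GL (H¹_B (F_{N j})) × 𝔾ₘ`, which acts on `Iso` by left
multiplication. -/
abbrev Pt (N : Fin r → ℕ) : Type := (∀ j, Matrix (FormIdx (N j)) (FormIdx (N j)) ℂ) × ℂ

/-- The index set of the coordinates of `Pt N`. -/
abbrev Crd (N : Fin r → ℕ) : Type := Option (Σ j, FormIdx (N j) × FormIdx (N j))

/-- The coordinates: all matrix entries and the number `λ`. -/
def crd {N : Fin r → ℕ} (f : Pt N) : Crd N → ℂ
  | none => f.2
  | some ⟨j, q, p⟩ => f.1 j q p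

/-- The comparison isomorphism `c`: the matrices of periods and `λ = 2 π i`. -/
def comparison {N : Fin r → ℕ} (γ : ∀ j, FormIdx (N j) → Loop (N j)) : Pt N :=
  (fun j => Matrix.of fun q p => (γ j q).period p, 2 * Real.pi * Complex.I)

/-- The complex points of `Z_X`, the Zariski closure of `c` in `Iso` over the algebraic numbers: all
points at which every polynomial with algebraic coefficients vanishing at `c` vanishes. -/
def ZX {N : Fin r → ℕ} (γ : ∀ j, FormIdx (N j) → Loop (N j)) : Set (Pt N) :=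
  {f | IsUnit f ∧ ∀ P : MvPolynomial (Crd N) ℂ, (∀ m, IsAlgebraic ℚ (P.coeff m)) →
    MvPolynomial.eval (crd (comparison γ)) P = 0 → MvPolynomial.eval (crd f) P = 0}

/-! ### The Hodge torsor -/

/-- `α` is a Hodge class of codimension `k` on `⨂ l, H¹ (F_{N (i l)})`: its coordinates in the basis
of products of the `ω_{a,b}` are algebraic numbers, `c (α) = (2 π i) ^ k β` with `β` rational, and `α`
is of type `(k, k)`, i.e. if there is a nonzero coordinate then `n = 2 k`, and in every nonzero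
coordinate exactly `k` of the forms are of the first kind. -/
structure IsHodgeClass {N : Fin r → ℕ} (γ : ∀ j, FormIdx (N j) → Loop (N j)) {n : ℕ}
    (i : Fin n → Fin r) (k : ℤ) (α : (∀ l, FormIdx (N (i l))) → ℂ)
    (β : (∀ l, FormIdx (N (i l))) → ℚ) : Prop where
  alg : ∀ I, IsAlgebraic ℚ (α I)
  rat : ∀ q : ∀ l, FormIdx (N (i l)),
    ∑ I : ∀ l, FormIdx (N (i l)), α I * ∏ l, (γ (i l) (q l)).period (I l) =
      (2 * Real.pi * Complex.I) ^ k * β q
  type : ∀ I, α I ≠ 0 → (n : ℤ) = 2 * k ∧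
    ((Finset.univ.filter fun l => (I l).a + (I l).b < N (i l)).card : ℤ) = k

/-- The complex points of the torsor `Ω_X`: all `(f, λ)` in `Iso` with `f (α) = λ ^ k β` for all Hodge
classes `α` on all tensor products of the `H¹ (F_{N j})`. -/
def Omega {N : Fin r → ℕ} (γ : ∀ j, FormIdx (N j) → Loop (N j)) : Set (Pt N) :=
  {f | IsUnit f ∧ ∀ (n : ℕ) (i : Fin n → Fin r) (k : ℤ) (α : (∀ l, FormIdx (N (i l))) → ℂ)
    (β : (∀ l, FormIdx (N (i l))) → ℚ), IsHodgeClass γ i k α β →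
    ∀ q : ∀ l, FormIdx (N (i l)),
      ∑ I : ∀ l, FormIdx (N (i l)), α I * ∏ l, f.1 (i l) (q l) (I l) = f.2 ^ k * β q}

/-! ### Torsors in Iso -/

/-- `H` is an algebraic subgroup of `∏ j, GL (H¹_B (F_{N j})) × 𝔾ₘ` defined over `ℚ`. -/
def IsQGroup {N : Fin r → ℕ} (H : Subgroup (Pt N)ˣ) : Prop :=
  ∃ T : Set (MvPolynomial (Crd N) ℚ), ∀ g : (Pt N)ˣ,
    g ∈ H ↔ ∀ P ∈ T, MvPolynomial.aeval (crd (g : Pt N)) P = 0

/-- `S` is the set of complex points of a closed subscheme of `Iso` defined over the algebraic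
numbers. -/
def IsClosedQbar {N : Fin r → ℕ} (S : Set (Pt N)) : Prop :=
  ∃ T : Set (MvPolynomial (Crd N) ℂ), (∀ P ∈ T, ∀ m, IsAlgebraic ℚ (P.coeff m)) ∧
    S = {f | IsUnit f ∧ ∀ P ∈ T, MvPolynomial.eval (crd f) P = 0}

/-- `S` is (the set of complex points of) a subtorsor of `Iso`: a closed subscheme defined over the
algebraic numbers which is a torsor under an algebraic subgroup `H` of
`∏ j, GL (H¹_B (F_{N j})) × 𝔾ₘ` defined over `ℚ`. -/
def IsSubtorsor {N : Fin r → ℕ} (S : Set (Pt N)) : Prop :=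
  IsClosedQbar S ∧ ∃ H : Subgroup (Pt N)ˣ, IsQGroup H ∧ ∃ s : (Pt N)ˣ,
    S = {f | ∃ h ∈ H, f = (h : Pt N) * s}

/-! ### Comparison with the definitions of the library -/

/-- an arc of the library as an arc -/
def toArc {N : ℕ} (A : Pool.Agent.FDR.Arc N) : Arc N := ⟨A.x, A.y, A.hx, A.hy, A.eqn⟩

/-- a loop of the library as a loop -/
def toLoop {N : ℕ} (γ : Pool.Agent.FDR.Loop N) : Loop N :=
  ⟨γ.m, fun i => toArc (γ.arc i), γ.closed⟩

theorem omega_eq {N : Fin r → ℕ}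
    (γ : ∀ j, Pool.Agent.FDR.FIdx (N j) → Pool.Agent.FDR.Loop (N j)) :
    (Omega (N := N) (fun j q => toLoop (γ j q)) : Set (Pt N)) = Pool.Agent.FDT.Omega γ := by
  ext f
  constructor
  · rintro ⟨h1, h2⟩
    refine ⟨h1, fun n i k α β h q => h2 n i k α β ⟨h.alg, h.rat, h.type⟩ q⟩
  · rintro ⟨h1, h2⟩
    refine ⟨h1, fun n i k α β h q => h2 n i k α β ⟨h.alg, h.rat, h.type⟩ q⟩

theorem crd_eq {N : Fin r → ℕ} (f : Pt N) : crd f = Pool.Agent.FDT.crd (N := N) f := by
  funext x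
  rcases x with _ | ⟨j, q, p⟩ <;> rfl

theorem zx_eq {N : Fin r → ℕ}
    (γ : ∀ j, Pool.Agent.FDR.FIdx (N j) → Pool.Agent.FDR.Loop (N j)) :
    (ZX (N := N) (fun j q => toLoop (γ j q)) : Set (Pt N)) = Pool.Agent.FDT.ZX γ := by
  ext f
  unfold ZX Pool.Agent.FDT.ZX
  simp only [crd_eq]
  exact Iff.rfl

theorem subtorsor_iff {N : Fin r → ℕ} (S : Set (Pt N)) :
    IsSubtorsor S ↔ Pool.Agent.FDT.IsSubtorsor (N := N) S := by
  unfold IsSubtorsor Pool.Agent.FDT.IsSubtorsor IsClosedQbar Pool.Agent.FDT.IsClosedQbar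
    IsQGroup Pool.Agent.FDT.IsQGroup
  simp only [crd_eq]
  exact Iff.rfl

/-- For `X = ∏ j, F_{N j}`, where every `N j` is `ℓ ^ K` or `2 ℓ ^ K` with `ℓ = 2` or `ℓ` a Fermat
prime, there are closed curves with invertible matrices of periods (bases of the `H₁ (F_{N j}, ℚ)`),
and `Ω_X` is the smallest subtorsor of `Iso` containing `Z_X`. -/
theorem result : ∀ (r : ℕ) (N : Fin r → ℕ), (∀ j, GoodDegree (N j)) →
    ∃ γ : ∀ j, FormIdx (N j) → Loop (N j), IsUnit (comparison γ) ∧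
      IsLeast {S : Set (Pt N) | IsSubtorsor S ∧ ZX γ ⊆ S} (Omega γ) := by
  intro r N hN
  obtain ⟨γ, hc, hmem, hmin⟩ := Pool.Agent.FDT.torsor_proof
    Pool.Agent.FDR.BETAREFL.thm_BETAREFL Pool.Agent.FDR.Assembly.core2
    Pool.Agent.FDR.Assembly.odd Pool.Agent.FDR.Assembly.odd2
    Pool.Agent.FDR.LOOP.thm_LOOP r N hN
  refine ⟨fun j q => toLoop (γ j q), hc, ?_, ?_⟩
  · refine ⟨?_, ?_⟩
    · rw [subtorsor_iff, omega_eq]
      exact hmem.1
    · rw [zx_eq, omega_eq]
      exact hmem.2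
  · rintro S ⟨hS, hZ⟩
    rw [omega_eq]
    rw [zx_eq] at hZ
    exact hmin ⟨(subtorsor_iff S).mp hS, hZ⟩

end

end Pool.Agent.FDT.ExplicitFermat
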