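import Pool.Agent.FDT.Defs
import Pool.Agent.FDR.DESC

/-! FDT, ORB: Hodge classes attached to Galois orbits. -/

open scoped BigOperators

namespace Pool.Agent.FDT

open Pool.Agent.FDR Pool.Agent.FDR.DESC

noncomputable section

variable {r : ℕ} {N : Fin r → ℕ}

theorem cop_of {t : ℕ} (ht : t.Coprime (∏ j, N j)) (j : Fin r) : t.Coprime (N j) :=
  Nat.Coprime.coprime_dvd_right (Finset.dvd_prod_of_mem N (Finset.mem_univ j)) ht

/-- multiplication of indices -/
def mI (hN : ∀ j, 0 < N j) (t : ℕ) (ht : t.Coprime (∏ j, N j)) (j : Fin r) (p : FIdx (N j)) :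
    FIdx (N j) := mulIdx (hN j) t (cop_of ht j) p

theorem mI_one (hN : ∀ j, 0 < N j) (t : ℕ) (ht : t.Coprime (∏ j, N j))
    (h1 : t ≡ 1 [MOD ∏ j, N j]) (j : Fin r) (p : FIdx (N j)) : mI hN t ht j p = p := by
  have h2 : t ≡ 1 [MOD N j] := h1.of_dvd (Finset.dvd_prod_of_mem N (Finset.mem_univ j))
  apply Subtype.ext
  apply Prod.ext
  · apply Fin.ext
    have h3 : t * p.a ≡ 1 * p.a [MOD N j] := h2.mul_right _
    rw [one_mul] at h3
    have h4 : t * p.a % N j = p.a % N j := h3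
    have h5 : p.a % N j = p.a := Nat.mod_eq_of_lt p.1.1.2
    exact h4.trans h5
  · apply Fin.ext
    have h3 : t * p.b ≡ 1 * p.b [MOD N j] := h2.mul_right _
    rw [one_mul] at h3
    have h4 : t * p.b % N j = p.b % N j := h3
    have h5 : p.b % N j = p.b := Nat.mod_eq_of_lt p.1.2.2
    exact h4.trans h5

theorem zeta_mI (hN : ∀ j, 0 < N j) (t : ℕ) (ht : t.Coprime (∏ j, N j)) (j : Fin r)
    (p : FIdx (N j)) (a b : ℕ) :
    zeta (N j) ^ (a * (mI hN t ht j p).a + b * (mI hN t ht j p).b)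
      = (zeta (N j) ^ t) ^ (a * p.a + b * p.b) := by
  have := zeta_mul (hN j) t (cop_of ht j) p 1 a b
  rw [one_mul, one_mul] at this
  exact this

theorem sum_alg {ι : Type} (s : Finset ι) (f : ι → ℂ) (h : ∀ i ∈ s, IsAlgebraic ℚ (f i)) :
    IsAlgebraic ℚ (∑ i ∈ s, f i) := by
  classical
  induction s using Finset.induction_on with
  | empty => simpa using (isAlgebraic_zero : IsAlgebraic ℚ (0 : ℂ))
  | insert a s ha ih =>
    rw [Finset.sum_insert ha]
    exact (h a (Finset.mem_insert_self a s)).add (ih fun i hi => h i (Finset.mem_insert_of_mem hi))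

theorem modEq_one {M t : ℕ} (hM : 0 < M) (h : zeta M ^ t = zeta M ^ 1) : t ≡ 1 [MOD M] := by
  have hz : IsPrimitiveRoot (zeta M) M := zeta_prim hM
  have h1 : zeta M ^ (t + (M - 1)) = 1 := by
    rw [pow_add, h, ← pow_add]
    have : 1 + (M - 1) = M := by omega
    rw [this, hz.pow_eq_one]
  have h2 := (hz.pow_eq_one_iff_dvd _).mp h1
  have h3 : t + (M - 1) ≡ 1 + (M - 1) [MOD M] := by
    have h4 : 1 + (M - 1) = M := by omega
    rw [h4]
    exact ((Nat.modEq_zero_iff_dvd.mpr h2)).trans (Nat.modEq_zero_iff_dvd.mpr dvd_rfl).symm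
  exact Nat.ModEq.add_right_cancel' _ h3

/-- the orbit relation -/
theorem orb (hN : ∀ j, 0 < N j) (γ : ∀ j, FIdx (N j) → Loop (N j)) (u v : ∀ j, FIdx (N j) → ℕ)
    (hγ : ∀ j q p, (γ j q).per p = zeta (N j) ^ (u j q * p.a + v j q * p.b) * fper (N j) p)
    {n : ℕ} (i : Fin n → Fin r) (I : ∀ l, FIdx (N (i l))) (k : ℤ) (hn : (n : ℤ) = 2 * k)
    (hT : ∀ (t : ℕ) (ht : t.Coprime (∏ j, N j)), IsAlgebraic ℚ
      ((∏ l, fper (N (i l)) (mI hN t ht (i l) (I l))) / (2 * Real.pi * Complex.I) ^ k))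
    (hF : ∀ (t : ℕ) (ht : t.Coprime (∏ j, N j)),
      ((Finset.univ.filter fun l => (mI hN t ht (i l) (I l)).a + (mI hN t ht (i l) (I l)).b
        < N (i l)).card : ℤ) = k)
    (f : Pt N) (hf : f ∈ Omega γ) (q : ∀ l, FIdx (N (i l))) :
    (∏ l, f.1 (i l) (q l) (I l)) * (2 * Real.pi * Complex.I) ^ k
      = f.2 ^ k * ∏ l, (γ (i l) (q l)).per (I l) := by
  classical
  set M : ℕ := ∏ j, N j with hM
  have hM0 : 0 < M := Finset.prod_pos (fun j _ => hN j)
  have hz : IsPrimitiveRoot (zeta M) M := zeta_prim hM0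
  have hint : IsIntegral ℚ (zeta M) := (hz.isIntegral hM0).tower_top
  let K : IntermediateField ℚ ℂ := IntermediateField.adjoin ℚ {zeta M}
  have hfin : FiniteDimensional ℚ K := IntermediateField.adjoin.finiteDimensional hint
  let z : K := IntermediateField.AdjoinSimple.gen ℚ (zeta M)
  let inc : K →ₐ[ℚ] ℂ := (algebraMap K ℂ).toRatAlgHom
  have hzv : inc z = zeta M := rfl
  have hzK : IsPrimitiveRoot z M := by
    apply IsPrimitiveRoot.of_map_of_injective (f := inc)
    · exact hz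
    · exact inc.injective
  have hσ : ∀ σ : K →ₐ[ℚ] ℂ, ∃ t : ℕ, t.Coprime M ∧ σ z = zeta M ^ t := by
    intro σ
    have h1 : IsPrimitiveRoot (σ z) M := hzK.map_of_injective σ.injective
    have hne : NeZero M := ⟨hM0.ne'⟩
    obtain ⟨t, -, ht, h2⟩ := hz.isPrimitiveRoot_iff.mp h1
    exact ⟨t, ht, h2.symm⟩
  choose t ht htz using hσ
  have hpi : (2 * Real.pi * Complex.I : ℂ) ≠ 0 := by
    simp [Real.pi_ne_zero, Complex.I_ne_zero]
  have hpik : (2 * Real.pi * Complex.I : ℂ) ^ k ≠ 0 := zpow_ne_zero _ hpi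
  have hroot : ∀ j, zeta M ^ (M / N j) = zeta (N j) := fun j =>
    zeta_pow_div hM0 (Finset.dvd_prod_of_mem N (Finset.mem_univ j))
  -- the conjugate indices
  let J : (K →ₐ[ℚ] ℂ) → ∀ l, FIdx (N (i l)) := fun σ l => mI hN (t σ) (ht σ) (i l) (I l)
  -- the coefficient
  let c : (∀ l, FIdx (N (i l))) → ℂ := fun I' =>
    (2 * Real.pi * Complex.I) ^ k / ∏ l, fper (N (i l)) (I' l)
  let cw : (Fin n → ℕ) → (Fin n → ℕ) → (∀ l, FIdx (N (i l))) → ℂ := fun a b I' =>
    ∏ l, zeta (N (i l)) ^ (a l * (I' l).a + b l * (I' l).b)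
  let al : (Fin n → ℕ) → (Fin n → ℕ) → (∀ l, FIdx (N (i l))) → ℂ := fun a b I' =>
    ∑ σ : K →ₐ[ℚ] ℂ, if I' = J σ then cw a b I' * c I' else 0
  have hfp : ∀ I' : ∀ l, FIdx (N (i l)), ∏ l, fper (N (i l)) (I' l) ≠ 0 := fun I' =>
    Finset.prod_ne_zero_iff.mpr fun l _ => fper_ne (hN (i l)) (I' l)
  -- general summation
  have hsum : ∀ (a b : Fin n → ℕ) (F : (∀ l, FIdx (N (i l))) → ℂ),
      ∑ I', al a b I' * F I' = ∑ σ : K →ₐ[ℚ] ℂ, cw a b (J σ) * c (J σ) * F (J σ) := by
    intro a b F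
    have h1 : ∀ I', al a b I' * F I'
        = ∑ σ : K →ₐ[ℚ] ℂ, if I' = J σ then cw a b I' * c I' * F I' else 0 := by
      intro I'
      change (∑ σ : K →ₐ[ℚ] ℂ, if I' = J σ then cw a b I' * c I' else 0) * F I' = _
      rw [Finset.sum_mul]
      apply Finset.sum_congr rfl
      intro σ _
      rw [ite_mul, zero_mul]
    simp_rw [h1]
    rw [Finset.sum_comm]
    apply Finset.sum_congr rfl
    intro σ _
    rw [Finset.sum_ite_eq' Finset.univ (J σ)]
    simp
  -- values on conjugate indices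
  have hcw : ∀ (σ : K →ₐ[ℚ] ℂ) (a b : Fin n → ℕ), cw a b (J σ)
      = σ (z ^ (∑ l, (M / N (i l)) * (a l * (I l).a + b l * (I l).b))) := by
    intro σ a b
    rw [map_pow, htz σ, ← Finset.prod_pow_eq_pow_sum]
    apply Finset.prod_congr rfl
    intro l _
    rw [zeta_mI hN (t σ) (ht σ) (i l) (I l), ← hroot (i l), ← pow_mul, ← pow_mul, ← pow_mul]
    congr 1
    ring
  have hcwadd : ∀ (a b a' b' : Fin n → ℕ) (I' : ∀ l, FIdx (N (i l))),
      cw a b I' * cw a' b' I' = cw (a + a') (b + b') I' := by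
    intro a b a' b' I'
    change (∏ l, _) * (∏ l, _) = ∏ l, _
    rw [← Finset.prod_mul_distrib]
    apply Finset.prod_congr rfl
    intro l _
    rw [← pow_add]
    congr 1
    simp only [Pi.add_apply]
    ring
  -- it is a Hodge class
  have hclass : ∀ a b : Fin n → ℕ, IsHodgeClass γ i k (al a b) (fun q' =>
      Algebra.trace ℚ K (z ^ (∑ l, (M / N (i l)) *
        ((a + fun l => u (i l) (q' l)) l * (I l).a + (b + fun l => v (i l) (q' l)) l * (I l).b)))) := by
    intro a b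
    refine ⟨?_, ?_, ?_⟩
    · intro I'
      apply sum_alg
      intro σ _
      split_ifs with h
      · apply IsAlgebraic.mul
        · apply prod_alg
          intro l _
          exact (zeta_alg (hN (i l))).pow _
        · have h1 := (hT (t σ) (ht σ)).inv
          rw [inv_div] at h1
          rw [h]
          exact h1
      · exact isAlgebraic_zero
    · intro q'
      rw [hsum a b (fun I' => ∏ l, (γ (i l) (q' l)).per (I' l))]
      have h1 : ∀ σ : K →ₐ[ℚ] ℂ, cw a b (J σ) * c (J σ) * ∏ l, (γ (i l) (q' l)).per (J σ l)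
          = (2 * Real.pi * Complex.I) ^ k * σ (z ^ (∑ l, (M / N (i l)) *
        ((a + fun l => u (i l) (q' l)) l * (I l).a + (b + fun l => v (i l) (q' l)) l * (I l).b))) := by
        intro σ
        rw [← hcw σ (a + fun l => u (i l) (q' l)) (b + fun l => v (i l) (q' l)), ← hcwadd]
        have h2 : ∏ l, (γ (i l) (q' l)).per (J σ l)
            = cw (fun l => u (i l) (q' l)) (fun l => v (i l) (q' l)) (J σ)
              * ∏ l, fper (N (i l)) (J σ l) := by
          change _ = (∏ l, _) * (∏ l, _)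
          rw [← Finset.prod_mul_distrib]
          apply Finset.prod_congr rfl
          intro l _
          exact hγ _ _ _
        rw [h2]
        have h3 : c (J σ) * ∏ l, fper (N (i l)) (J σ l) = (2 * Real.pi * Complex.I) ^ k :=
          div_mul_cancel₀ _ (hfp (J σ))
        linear_combination (cw a b (J σ)
          * cw (fun l => u (i l) (q' l)) (fun l => v (i l) (q' l)) (J σ)) * h3
      simp_rw [h1]
      rw [← Finset.mul_sum]
      congr 1
      have h4 := trace_eq_sum_embeddings (K := ℚ) (L := K) ℂ (x := z ^ (∑ l, (M / N (i l)) *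
        ((a + fun l => u (i l) (q' l)) l * (I l).a + (b + fun l => v (i l) (q' l)) l * (I l).b)))
      exact h4.symm
    · intro I' hI'
      refine ⟨hn, ?_⟩
      have h1 : ∃ σ : K →ₐ[ℚ] ℂ, I' = J σ := by
        by_contra hno
        push Not at hno
        apply hI'
        apply Finset.sum_eq_zero
        intro σ _
        rw [if_neg (hno σ)]
      obtain ⟨σ, rfl⟩ := h1
      exact hF (t σ) (ht σ)
  -- the relation for `f`
  let X : (∀ l, FIdx (N (i l))) → ℂ := fun I' =>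
    c I' * (∏ l, f.1 (i l) (q l) (I' l))
      - f.2 ^ k * cw (fun l => u (i l) (q l)) (fun l => v (i l) (q l)) I'
  have hrel : ∀ a b : Fin n → ℕ, ∑ σ : K →ₐ[ℚ] ℂ, cw a b (J σ) * X (J σ) = 0 := by
    intro a b
    have h1 := hf.2 n i k (al a b) _ (hclass a b) q
    rw [hsum a b (fun I' => ∏ l, f.1 (i l) (q l) (I' l))] at h1
    have h4 := trace_eq_sum_embeddings (K := ℚ) (L := K) ℂ (x := z ^ (∑ l, (M / N (i l)) *
        ((a + fun l => u (i l) (q l)) l * (I l).a + (b + fun l => v (i l) (q l)) l * (I l).b)))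
    have h5 : ((Algebra.trace ℚ K (z ^ (∑ l, (M / N (i l)) *
        ((a + fun l => u (i l) (q l)) l * (I l).a + (b + fun l => v (i l) (q l)) l * (I l).b))) : ℚ) : ℂ)
        = ∑ σ : K →ₐ[ℚ] ℂ, cw a b (J σ)
          * cw (fun l => u (i l) (q l)) (fun l => v (i l) (q l)) (J σ) := by
      refine h4.trans ?_
      apply Finset.sum_congr rfl
      intro σ _
      rw [hcwadd, hcw]
    rw [h5] at h1
    have h6 : ∑ σ : K →ₐ[ℚ] ℂ, cw a b (J σ) * X (J σ)
        = ∑ σ : K →ₐ[ℚ] ℂ, cw a b (J σ) * c (J σ) * ∏ l, f.1 (i l) (q l) (J σ l)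
          - f.2 ^ k * ∑ σ : K →ₐ[ℚ] ℂ, cw a b (J σ)
          * cw (fun l => u (i l) (q l)) (fun l => v (i l) (q l)) (J σ) := by
      rw [Finset.mul_sum, ← Finset.sum_sub_distrib]
      apply Finset.sum_congr rfl
      intro σ _
      change cw a b (J σ) * (c (J σ) * (∏ l, f.1 (i l) (q l) (J σ l))
      - f.2 ^ k * cw (fun l => u (i l) (q l)) (fun l => v (i l) (q l)) (J σ)) = _
      ring
    rw [h6, h1, sub_self]
  -- Fourier inversion
  let mu : (∀ l, FIdx (N (i l))) → ℂ := fun I' => ∑ σ : K →ₐ[ℚ] ℂ, if I' = J σ then (1 : ℂ) else 0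
  have hval : ∀ a b : Fin n → ℕ,
      val (fun l => N (i l)) (fun I' => mu I' * X I' / ∏ l, fper (N (i l)) (I' l)) a b = 0 := by
    intro a b
    rw [← hrel a b]
    unfold val
    have h1 : ∀ I' : ∀ l, FIdx (N (i l)),
        mu I' * X I' / (∏ l, fper (N (i l)) (I' l))
          * ∏ l, (zeta (N (i l)) ^ (a l * (I' l).a + b l * (I' l).b) * fper (N (i l)) (I' l))
        = ∑ σ : K →ₐ[ℚ] ℂ, if I' = J σ then cw a b I' * X I' else 0 := by
      intro I'
      rw [Finset.prod_mul_distrib]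
      have h2 := hfp I'
      have h3 : mu I' * X I' / (∏ l, fper (N (i l)) (I' l))
          * ((∏ l, zeta (N (i l)) ^ (a l * (I' l).a + b l * (I' l).b))
            * ∏ l, fper (N (i l)) (I' l))
          = mu I' * (cw a b I' * X I') := by
        change mu I' * X I' / (∏ l, fper (N (i l)) (I' l))
          * (cw a b I' * ∏ l, fper (N (i l)) (I' l)) = mu I' * (cw a b I' * X I')
        field_simp
      rw [h3]
      change (∑ σ : K →ₐ[ℚ] ℂ, if I' = J σ then (1 : ℂ) else 0) * (cw a b I' * X I') = _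
      rw [Finset.sum_mul]
      apply Finset.sum_congr rfl
      intro σ _
      rw [ite_mul, one_mul, zero_mul]
    rw [Finset.sum_congr rfl (fun I' _ => h1 I'), Finset.sum_comm]
    apply Finset.sum_congr rfl
    intro σ _
    rw [Finset.sum_ite_eq' Finset.univ (J σ)]
    simp
  have hinv := inversion (N := fun l => N (i l)) (fun l => hN (i l))
    (fun I' => mu I' * X I' / ∏ l, fper (N (i l)) (I' l)) I
  simp_rw [hval, zero_mul, Finset.sum_const_zero] at hinv
  have hNN : ∏ l, ((N (i l) : ℂ) * N (i l)) ≠ 0 := by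
    apply Finset.prod_ne_zero_iff.mpr
    intro l _
    have : (N (i l) : ℂ) ≠ 0 := by exact_mod_cast (hN (i l)).ne'
    exact mul_ne_zero this this
  have hX : mu I * X I = 0 := by
    have h1 := hinv.symm
    rw [div_mul_cancel₀ _ (hfp I)] at h1
    exact (mul_eq_zero.mp h1).resolve_right hNN
  have hmu : mu I ≠ 0 := by
    have h1 : I = J inc := by
      funext l
      have h2 : zeta M ^ t inc = zeta M ^ 1 := by
        rw [← htz inc, hzv, pow_one]
      have h3 : t inc ≡ 1 [MOD M] := modEq_one hM0 h2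
      exact (mI_one hN (t inc) (ht inc) h3 (i l) (I l)).symm
    have h2 : mu I = (((Finset.univ.filter (fun σ : K →ₐ[ℚ] ℂ => I = J σ)).card : ℕ) : ℂ) := by
      change (∑ σ : K →ₐ[ℚ] ℂ, if I = J σ then (1 : ℂ) else 0) = _
      rw [Finset.sum_boole]
    rw [h2]
    have h3 : 0 < (Finset.univ.filter (fun σ : K →ₐ[ℚ] ℂ => I = J σ)).card := by
      apply Finset.card_pos.mpr
      exact ⟨inc, Finset.mem_filter.mpr ⟨Finset.mem_univ _, h1⟩⟩
    exact_mod_cast h3.ne'
  have hX0 : X I = 0 := (mul_eq_zero.mp hX).resolve_left hmu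
  have h2 : ∏ l, (γ (i l) (q l)).per (I l)
      = cw (fun l => u (i l) (q l)) (fun l => v (i l) (q l)) I
        * ∏ l, fper (N (i l)) (I l) := by
    change _ = (∏ l, _) * (∏ l, _)
    rw [← Finset.prod_mul_distrib]
    apply Finset.prod_congr rfl
    intro l _
    exact hγ _ _ _
  rw [h2]
  have h3 : c I * ∏ l, fper (N (i l)) (I l) = (2 * Real.pi * Complex.I) ^ k :=
    div_mul_cancel₀ _ (hfp I)
  have h4 : c I * (∏ l, f.1 (i l) (q l) (I l))
      - f.2 ^ k * cw (fun l => u (i l) (q l)) (fun l => v (i l) (q l)) I = 0 := hX0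
  linear_combination (∏ l, fper (N (i l)) (I l)) * h4 - (∏ l, f.1 (i l) (q l) (I l)) * h3

end

end Pool.Agent.FDT
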